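import Mathlib

set_option autoImplicit false

open Function
open scoped ENNReal InnerProductSpace

namespace Pool.Agent.Helper88.EC

/-! Existentially closed groups -/

/-- The tuple `x` in the group `K` solves the finite system of equations `w = 1` (`w ∈ E`) and
inequations `w ≠ 1` (`w ∈ I`).  The `w` are words in `m` constants and `n` unknowns; the constants
are read as `c 0, …, c (m-1)`. -/
def Solves {m n : ℕ} (E I : Finset (FreeGroup (Fin m ⊕ Fin n))) {K : Type} [Group K]
    (c : Fin m → K) (x : Fin n → K) : Prop :=
  (∀ w ∈ E, FreeGroup.lift (Sum.elim c x) w = 1) ∧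
    (∀ w ∈ I, FreeGroup.lift (Sum.elim c x) w ≠ 1)

/-- `G` is existentially closed: every finite system of equations and inequations with constants
from `G` that has a solution in some group containing `G` has a solution in `G`. -/
def IsEC (G : Type) [Group G] : Prop :=
  ∀ (m n : ℕ) (E I : Finset (FreeGroup (Fin m ⊕ Fin n))) (c : Fin m → G),
    (∃ (K : Type) (_ : Group K) (j : G →* K) (x : Fin n → K),
      Injective j ∧ Solves E I (j ∘ c) x) → ∃ x : Fin n → G, Solves E I c x

/-! The continuous language of tracial von Neumann algebras -/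

/-- Terms of the language of tracial von Neumann algebras in the variables `x_0, …, x_{n-1}`. -/
inductive Tm (n : ℕ) : Type
  | var (i : Fin n) : Tm n
  | zero : Tm n
  | one : Tm n
  | add (s t : Tm n) : Tm n
  | mul (s t : Tm n) : Tm n
  | star (t : Tm n) : Tm n
  | smul (c : ℂ) (t : Tm n) : Tm n

/-- Formulas of the continuous first-order language of tracial von Neumann algebras with free
variables `x_0, …, x_{n-1}`.  Atomic formulas: real and imaginary part of the trace of a term, and
the distance of two terms.  Connectives: all continuous functions `ℝ^k → ℝ`.  Quantifiers: infimum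
and supremum over the operator norm ball of radius `N`. -/
inductive Fml : ℕ → Type
  | reTr {n : ℕ} (t : Tm n) : Fml n
  | imTr {n : ℕ} (t : Tm n) : Fml n
  | dist {n : ℕ} (s t : Tm n) : Fml n
  | conn {n : ℕ} (k : ℕ) (u : C(Fin k → ℝ, ℝ)) (φ : Fin k → Fml n) : Fml n
  | inf {n : ℕ} (N : ℕ) (φ : Fml (n + 1)) : Fml n
  | sup {n : ℕ} (N : ℕ) (φ : Fml (n + 1)) : Fml n

section

variable {B : Type} [NormedRing B] [StarRing B] [NormedAlgebra ℂ B]

/-- Value of a term. -/
def Tm.eval {n : ℕ} (a : Fin n → B) : Tm n → B
  | .var i => a i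
  | .zero => 0
  | .one => 1
  | .add s t => s.eval a + t.eval a
  | .mul s t => s.eval a * t.eval a
  | .star t => Star.star (t.eval a)
  | .smul c t => c • t.eval a

/-- Value of a formula in the structure with underlying set `M ⊆ B` and trace `τ`; the distance is
`d(x, y) = τ((x - y)^* (x - y))^{1/2}`; quantifiers range over the elements of `M` of operator norm
at most `N`; the new variable gets index `0`. -/
noncomputable def Fml.val (M : Set B) (τ : B → ℂ) : {n : ℕ} → Fml n → (Fin n → B) → ℝ
  | _, .reTr t, a => (τ (t.eval a)).re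
  | _, .imTr t, a => (τ (t.eval a)).im
  | _, .dist s t, a => Real.sqrt (τ (star (s.eval a - t.eval a) * (s.eval a - t.eval a))).re
  | _, .conn _ u φ, a => u (fun i => (φ i).val M τ a)
  | _, .inf N φ, a => sInf ((fun x => φ.val M τ (Fin.cons x a)) '' {x | x ∈ M ∧ ‖x‖ ≤ N})
  | _, .sup N φ, a => sSup ((fun x => φ.val M τ (Fin.cons x a)) '' {x | x ∈ M ∧ ‖x‖ ≤ N})

end

/-! Group von Neumann algebras -/

/-- The Hilbert space `ℓ²(α)`. -/
abbrev Hs (α : Type) : Type := lp (fun _ : α => ℂ) 2

/-- The bounded operators on `ℓ²(α)`. -/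
abbrev BH (α : Type) : Type := Hs α →L[ℂ] Hs α

/-- The unit vector `δ_e` of `ℓ²(G)`. -/
noncomputable def deltaOne (G : Type) [Group G] : Hs G := by
  classical exact lp.single 2 (1 : G) (1 : ℂ)

/-- The closure, in the weak operator topology of the bounded operators on the Hilbert space `E`,
of the linear span of a set of operators. -/
def wotSpanClosure {E : Type} [NormedAddCommGroup E] [InnerProductSpace ℂ E]
    (S : Set (E →L[ℂ] E)) : Set (E →L[ℂ] E) :=
  {x | ContinuousLinearMapWOT.ofCLM x ∈
    closure (ContinuousLinearMapWOT.ofCLM '' (Submodule.span ℂ S : Set (E →L[ℂ] E)))}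

/-- The left translations `λ_g`, `(λ_g ξ)(h) = ξ(g⁻¹ h)`, on `ℓ²(G)`. -/
def leftTranslations (G : Type) [Group G] : Set (BH G) :=
  {T | ∃ g : G, ∀ (ξ : Hs G) (h : G), (T ξ) h = ξ (g⁻¹ * h)}

/-- The group von Neumann algebra `L(G)`: the closure, in the weak operator topology of the
bounded operators on `ℓ²(G)`, of the linear span of the left translations. -/
def groupVN (G : Type) [Group G] : Set (BH G) := wotSpanClosure (leftTranslations G)

/-- The canonical trace `τ(x) = ⟨x δ_e, δ_e⟩`. -/
noncomputable def canTrace (G : Type) [Group G] (x : BH G) : ℂ :=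
  ⟪deltaOne G, x (deltaOne G)⟫_ℂ

/-- `L(G) ≡ L(H)`: every sentence of the continuous language of tracial von Neumann algebras has
the same value in `L(G)` and in `L(H)`. -/
def ElemEquivVN (G H : Type) [Group G] [Group H] : Prop :=
  ∀ φ : Fml 0, φ.val (groupVN G) (canTrace G) Fin.elim0 = φ.val (groupVN H) (canTrace H) Fin.elim0

end Pool.Agent.Helper88.EC
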