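import Mathlib
import Pool.Agent.Helper88.EC.Defs

set_option autoImplicit false

open Function

namespace Pool.Agent.Helper88.EC

section iso

variable {B₁ B₂ : Type} [NormedRing B₁] [StarRing B₁] [NormedAlgebra ℂ B₁]
  [NormedRing B₂] [StarRing B₂] [NormedAlgebra ℂ B₂]

/-- an isomorphism of structures -/
structure IsIso (M₁ : Set B₁) (τ₁ : B₁ → ℂ) (M₂ : Set B₂) (τ₂ : B₂ → ℂ) (π : B₁ → B₂) : Prop where
  cz : (0 : B₁) ∈ M₁
  co : (1 : B₁) ∈ M₁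
  ca : ∀ x ∈ M₁, ∀ y ∈ M₁, x + y ∈ M₁
  cm : ∀ x ∈ M₁, ∀ y ∈ M₁, x * y ∈ M₁
  cs : ∀ x ∈ M₁, star x ∈ M₁
  cc : ∀ (c : ℂ), ∀ x ∈ M₁, c • x ∈ M₁
  maps : ∀ x ∈ M₁, π x ∈ M₂
  surj : ∀ y ∈ M₂, ∃ x ∈ M₁, π x = y
  mz : π 0 = 0
  mo : π 1 = 1
  ma : ∀ x ∈ M₁, ∀ y ∈ M₁, π (x + y) = π x + π y
  mm : ∀ x ∈ M₁, ∀ y ∈ M₁, π (x * y) = π x * π y
  ms : ∀ x ∈ M₁, π (star x) = star (π x)
  mc : ∀ (c : ℂ), ∀ x ∈ M₁, π (c • x) = c • π x
  nm : ∀ x ∈ M₁, ‖π x‖ = ‖x‖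
  tr : ∀ x ∈ M₁, τ₂ (π x) = τ₁ x

variable {M₁ : Set B₁} {τ₁ : B₁ → ℂ} {M₂ : Set B₂} {τ₂ : B₂ → ℂ} {π : B₁ → B₂}

lemma IsIso.eval_mem (h : IsIso M₁ τ₁ M₂ τ₂ π) {n : ℕ} (t : Tm n) (a : Fin n → B₁)
    (ha : ∀ i, a i ∈ M₁) : t.eval a ∈ M₁ := by
  induction t with
  | var i => exact ha i
  | zero => exact h.cz
  | one => exact h.co
  | add s t ihs iht => exact h.ca _ ihs _ iht
  | mul s t ihs iht => exact h.cm _ ihs _ iht
  | star t ih => exact h.cs _ ih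
  | smul c t ih => exact h.cc c _ ih

lemma IsIso.eval_map (h : IsIso M₁ τ₁ M₂ τ₂ π) {n : ℕ} (t : Tm n) (a : Fin n → B₁)
    (ha : ∀ i, a i ∈ M₁) : t.eval (π ∘ a) = π (t.eval a) := by
  induction t with
  | var i => rfl
  | zero => exact h.mz.symm
  | one => exact h.mo.symm
  | add s t ihs iht =>
    simp only [Tm.eval, ihs, iht]
    exact (h.ma _ (h.eval_mem s a ha) _ (h.eval_mem t a ha)).symm
  | mul s t ihs iht =>
    simp only [Tm.eval, ihs, iht]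
    exact (h.mm _ (h.eval_mem s a ha) _ (h.eval_mem t a ha)).symm
  | star t ih =>
    simp only [Tm.eval, ih]
    exact (h.ms _ (h.eval_mem t a ha)).symm
  | smul c t ih =>
    simp only [Tm.eval, ih]
    exact (h.mc c _ (h.eval_mem t a ha)).symm

lemma IsIso.sub_mem (h : IsIso M₁ τ₁ M₂ τ₂ π) {x y : B₁} (hx : x ∈ M₁) (hy : y ∈ M₁) :
    x - y ∈ M₁ := by
  have : x - y = x + (-1 : ℂ) • y := by simp [sub_eq_add_neg]
  rw [this]; exact h.ca _ hx _ (h.cc _ _ hy)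

lemma IsIso.map_sub (h : IsIso M₁ τ₁ M₂ τ₂ π) {x y : B₁} (hx : x ∈ M₁) (hy : y ∈ M₁) :
    π (x - y) = π x - π y := by
  have : x - y = x + (-1 : ℂ) • y := by simp [sub_eq_add_neg]
  rw [this, h.ma _ hx _ (h.cc _ _ hy), h.mc _ _ hy]
  simp [sub_eq_add_neg]

lemma cons_comp {α β : Type} (π : α → β) {n : ℕ} (x : α) (a : Fin n → α) :
    (Fin.cons (π x) (π ∘ a) : Fin (n + 1) → β) = π ∘ (Fin.cons x a : Fin (n + 1) → α) := by
  ext i; refine Fin.cases ?_ ?_ i <;> simp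

theorem IsIso.val_eq (h : IsIso M₁ τ₁ M₂ τ₂ π) {n : ℕ} (φ : Fml n) : ∀ (a : Fin n → B₁),
    (∀ i, a i ∈ M₁) → φ.val M₂ τ₂ (π ∘ a) = φ.val M₁ τ₁ a := by
  induction φ with
  | reTr t =>
    intro a ha
    simp only [Fml.val]
    rw [h.eval_map t a ha, h.tr _ (h.eval_mem t a ha)]
  | imTr t =>
    intro a ha
    simp only [Fml.val]
    rw [h.eval_map t a ha, h.tr _ (h.eval_mem t a ha)]
  | dist s t =>
    intro a ha
    have hs := h.eval_mem s a ha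
    have ht := h.eval_mem t a ha
    simp only [Fml.val]
    rw [h.eval_map s a ha, h.eval_map t a ha, ← h.map_sub hs ht, ← h.ms _ (h.sub_mem hs ht),
      ← h.mm _ (h.cs _ (h.sub_mem hs ht)) _ (h.sub_mem hs ht),
      h.tr _ (h.cm _ (h.cs _ (h.sub_mem hs ht)) _ (h.sub_mem hs ht))]
  | conn k u φ ih =>
    intro a ha
    simp only [Fml.val]
    congr 1
    ext i
    exact ih i a ha
  | inf N φ ih =>
    intro a ha
    simp only [Fml.val]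
    congr 1
    ext r
    constructor
    · rintro ⟨y, ⟨hy, hyN⟩, rfl⟩
      obtain ⟨x, hx, rfl⟩ := h.surj y hy
      refine ⟨x, ⟨hx, by rw [← h.nm x hx]; exact hyN⟩, ?_⟩
      simp only
      rw [cons_comp, ih]
      exact Fin.cases hx ha
    · rintro ⟨x, ⟨hx, hxN⟩, rfl⟩
      refine ⟨π x, ⟨h.maps x hx, by rw [h.nm x hx]; exact hxN⟩, ?_⟩
      simp only
      rw [cons_comp, ih]
      exact Fin.cases hx ha
  | sup N φ ih =>
    intro a ha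
    simp only [Fml.val]
    congr 1
    ext r
    constructor
    · rintro ⟨y, ⟨hy, hyN⟩, rfl⟩
      obtain ⟨x, hx, rfl⟩ := h.surj y hy
      refine ⟨x, ⟨hx, by rw [← h.nm x hx]; exact hyN⟩, ?_⟩
      simp only
      rw [cons_comp, ih]
      exact Fin.cases hx ha
    · rintro ⟨x, ⟨hx, hxN⟩, rfl⟩
      refine ⟨π x, ⟨h.maps x hx, by rw [h.nm x hx]; exact hxN⟩, ?_⟩
      simp only
      rw [cons_comp, ih]
      exact Fin.cases hx ha

end iso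

end Pool.Agent.Helper88.EC
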