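import Mathlib
import Pool.Agent.Helper88.EC.Defs

set_option autoImplicit false

open Function
open scoped ENNReal InnerProductSpace

namespace Pool.Agent.Helper88.EC

section basics

variable {α β γ : Type}

lemma two_toReal : (2 : ℝ≥0∞).toReal = 2 := by norm_num

lemma nsq (ξ : Hs α) : ‖ξ‖ ^ 2 = ∑' i, ‖ξ i‖ ^ 2 := by
  have := lp.norm_rpow_eq_tsum (p := 2) (by norm_num) ξ
  simpa [two_toReal] using this

lemma summ (ξ : Hs α) : Summable fun i => ‖ξ i‖ ^ 2 := by
  have := (lp.memℓp ξ).summable (by norm_num)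
  simpa [two_toReal] using this

/-- vector from a square summable function -/
def mk2 (f : α → ℂ) (hf : Summable fun i => ‖f i‖ ^ 2) : Hs α :=
  ⟨f, memℓp_gen (by simpa [two_toReal] using hf)⟩

@[simp] lemma mk2_apply (f : α → ℂ) (hf : Summable fun i => ‖f i‖ ^ 2) (i : α) :
    mk2 f hf i = f i := rfl

lemma hs_ext {ξ η : Hs α} (h : ∀ i, ξ i = η i) : ξ = η := lp.ext (funext h)

@[simp] lemma hs_add (ξ η : Hs α) (i : α) : (ξ + η) i = ξ i + η i := rfl
@[simp] lemma hs_sub (ξ η : Hs α) (i : α) : (ξ - η) i = ξ i - η i := rfl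
@[simp] lemma hs_smul (c : ℂ) (ξ : Hs α) (i : α) : (c • ξ) i = c * ξ i := rfl
@[simp] lemma hs_zero (i : α) : (0 : Hs α) i = 0 := rfl

/-- bounded operator from a pointwise formula -/
noncomputable def opOf (T : Hs α →ₗ[ℂ] (β → ℂ)) (C : ℝ) (hC : 0 ≤ C)
    (hs : ∀ ξ, Summable fun b => ‖T ξ b‖ ^ 2) (hb : ∀ ξ, ∑' b, ‖T ξ b‖ ^ 2 ≤ (C * ‖ξ‖) ^ 2) :
    Hs α →L[ℂ] Hs β :=
  LinearMap.mkContinuous
    { toFun := fun ξ => mk2 (T ξ) (hs ξ)
      map_add' := fun ξ η => by apply hs_ext; intro i; simp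
      map_smul' := fun c ξ => by apply hs_ext; intro i; simp } C (by
      intro ξ
      have h0 : 0 ≤ C * ‖ξ‖ := by positivity
      rw [← abs_of_nonneg (norm_nonneg _), ← abs_of_nonneg h0, ← sq_le_sq, nsq]
      exact hb ξ)

@[simp] lemma opOf_apply (T : Hs α →ₗ[ℂ] (β → ℂ)) (C : ℝ) (hC : 0 ≤ C)
    (hs : ∀ ξ, Summable fun b => ‖T ξ b‖ ^ 2) (hb : ∀ ξ, ∑' b, ‖T ξ b‖ ^ 2 ≤ (C * ‖ξ‖) ^ 2)
    (ξ : Hs α) (b : β) : opOf T C hC hs hb ξ b = T ξ b := rfl

lemma norm_opOf_le (T : Hs α →ₗ[ℂ] (β → ℂ)) (C : ℝ) (hC : 0 ≤ C)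
    (hs : ∀ ξ, Summable fun b => ‖T ξ b‖ ^ 2) (hb : ∀ ξ, ∑' b, ‖T ξ b‖ ^ 2 ≤ (C * ‖ξ‖) ^ 2) :
    ‖opOf T C hC hs hb‖ ≤ C :=
  LinearMap.mkContinuous_norm_le _ hC _

/-- restriction along an injective map: `(res f ξ) b = ξ (f b)` -/
noncomputable def res (f : β → α) (hf : Injective f) : Hs α →L[ℂ] Hs β :=
  opOf
    { toFun := fun ξ b => ξ (f b)
      map_add' := fun ξ η => by ext; simp
      map_smul' := fun c ξ => by ext; simp } 1 zero_le_one
    (fun ξ => (summ ξ).comp_injective hf)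
    (fun ξ => by
      rw [one_mul, nsq]
      exact tsum_comp_le_tsum_of_inj (summ ξ) (fun _ => by positivity) hf)

@[simp] lemma res_apply (f : β → α) (hf : Injective f) (ξ : Hs α) (b : β) :
    res f hf ξ b = ξ (f b) := rfl

lemma norm_res_le (f : β → α) (hf : Injective f) : ‖res f hf‖ ≤ 1 := norm_opOf_le _ _ _ _ _

lemma res_res (f : β → α) (hf : Injective f) (f' : γ → β) (hf' : Injective f') (ξ : Hs α) :
    res f' hf' (res f hf ξ) = res (f ∘ f') (hf.comp hf') ξ := rfl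

/-- basis vectors -/
noncomputable def dl (a : α) : Hs α := by
  classical exact lp.single 2 a (1 : ℂ)

open Classical in
lemma dl_apply (a b : α) : dl a b = if b = a then 1 else 0 := by
  unfold dl
  by_cases h : b = a
  · subst h; simp
  · simp [h]

@[simp] lemma dl_self (a : α) : dl a a = 1 := by simp [dl_apply]

lemma dl_ne {a b : α} (h : b ≠ a) : dl a b = 0 := by simp [dl_apply, h]

@[simp] lemma norm_dl (a : α) : ‖dl a‖ = 1 := by
  classical
  unfold dl
  rw [lp.norm_single (by norm_num)]; simp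

lemma inner_dl_left (a : α) (ξ : Hs α) : ⟪dl a, ξ⟫_ℂ = ξ a := by
  classical
  unfold dl
  rw [lp.inner_single_left]
  simp

lemma inner_dl_right (a : α) (ξ : Hs α) : ⟪ξ, dl a⟫_ℂ = (starRingEnd ℂ) (ξ a) := by
  rw [← inner_conj_symm, inner_dl_left]

lemma hasSum_dl (ξ : Hs α) : HasSum (fun a => ξ a • dl a) ξ := by
  classical
  have := lp.hasSum_single (p := 2) (by norm_num) ξ
  convert this using 2 with a
  apply hs_ext
  intro b
  by_cases h : b = a
  · subst h; simp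
  · simp [dl_ne h, h]

lemma op_ext {E : Type} [NormedAddCommGroup E] [NormedSpace ℂ E] {x y : Hs α →L[ℂ] E}
    (h : ∀ a, x (dl a) = y (dl a)) : x = y := by
  ext ξ
  have h1 := (hasSum_dl ξ).mapL x
  have h2 := (hasSum_dl ξ).mapL y
  simp only [map_smul, h] at h1 h2
  exact h1.unique h2

end basics

section adj

variable {α β : Type}

open ContinuousLinearMap

/-- extension by zero along an injective map -/
noncomputable def xt (f : β → α) (hf : Injective f) : Hs β →L[ℂ] Hs α := adjoint (res f hf)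

lemma res_dl (f : β → α) (hf : Injective f) (b : β) : res f hf (dl (f b)) = dl b := by
  apply hs_ext
  intro c
  by_cases h : c = b
  · subst h; simp
  · rw [dl_ne h, res_apply, dl_ne (fun e => h (hf e))]

lemma res_dl_of_not_mem (f : β → α) (hf : Injective f) (a : α) (ha : ∀ b, f b ≠ a) :
    res f hf (dl a) = 0 := by
  apply hs_ext
  intro c
  rw [res_apply, dl_ne (ha c)]; rfl

lemma xt_apply (f : β → α) (hf : Injective f) (ζ : Hs β) (b : β) : xt f hf ζ (f b) = ζ b := by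
  rw [← inner_dl_left (f b), xt, adjoint_inner_right, res_dl, inner_dl_left]

lemma xt_apply_of_not_mem (f : β → α) (hf : Injective f) (ζ : Hs β) (a : α)
    (ha : ∀ b, f b ≠ a) : xt f hf ζ a = 0 := by
  rw [← inner_dl_left a, xt, adjoint_inner_right, res_dl_of_not_mem f hf a ha, inner_zero_left]

lemma res_xt (f : β → α) (hf : Injective f) (ζ : Hs β) : res f hf (xt f hf ζ) = ζ := by
  apply hs_ext; intro b
  rw [res_apply, xt_apply]

lemma xt_dl (f : β → α) (hf : Injective f) (b : β) : xt f hf (dl b) = dl (f b) := by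
  apply hs_ext; intro a
  by_cases h : ∃ c, f c = a
  · obtain ⟨c, rfl⟩ := h
    rw [xt_apply]
    by_cases hc : c = b
    · subst hc; simp
    · rw [dl_ne hc, dl_ne (fun e => hc (hf e))]
  · push Not at h
    rw [xt_apply_of_not_mem f hf _ a h, dl_ne (fun e => h b e.symm)]

lemma norm_xt_le (f : β → α) (hf : Injective f) : ‖xt f hf‖ ≤ 1 := by
  unfold xt
  rw [LinearIsometryEquiv.norm_map]
  exact norm_res_le f hf

lemma norm_xt_apply (f : β → α) (hf : Injective f) (ζ : Hs β) : ‖xt f hf ζ‖ = ‖ζ‖ := by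
  apply le_antisymm
  · calc ‖xt f hf ζ‖ ≤ ‖xt f hf‖ * ‖ζ‖ := le_opNorm _ _
      _ ≤ 1 * ‖ζ‖ := by gcongr; exact norm_xt_le f hf
      _ = ‖ζ‖ := one_mul _
  · calc ‖ζ‖ = ‖res f hf (xt f hf ζ)‖ := by rw [res_xt]
      _ ≤ ‖res f hf‖ * ‖xt f hf ζ‖ := le_opNorm _ _
      _ ≤ 1 * ‖xt f hf ζ‖ := by gcongr; exact norm_res_le f hf
      _ = ‖xt f hf ζ‖ := one_mul _

end adj

end Pool.Agent.Helper88.EC
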