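import Mathlib
import Pool.Agent.Helper88.EC.L2

set_option autoImplicit false

open Function
open scoped ENNReal InnerProductSpace

namespace Pool.Agent.Helper88.EC

section

variable {G : Type} [Group G]

/-- left regular representation, `(λ_g ξ)(h) = ξ(g⁻¹ h)` -/
noncomputable def lam (g : G) : BH G := res (fun h => g⁻¹ * h) (mul_right_injective _)

/-- right regular representation, `(ρ_g ξ)(h) = ξ(h g)` -/
noncomputable def rho (g : G) : BH G := res (fun h => h * g) (mul_left_injective g)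

@[simp] lemma lam_apply (g : G) (ξ : Hs G) (h : G) : lam g ξ h = ξ (g⁻¹ * h) := rfl
@[simp] lemma rho_apply (g : G) (ξ : Hs G) (h : G) : rho g ξ h = ξ (h * g) := rfl

lemma rho_dl (g h : G) : rho g (dl h) = dl (h * g⁻¹) := by
  have := res_dl (fun h => h * g) (mul_left_injective g) (h * g⁻¹)
  simp only [inv_mul_cancel_right] at this
  exact this

lemma lam_dl (g h : G) : lam g (dl h) = dl (g * h) := by
  have := res_dl (fun h => g⁻¹ * h) (mul_right_injective g⁻¹) (g * h)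
  simp only [inv_mul_cancel_left] at this
  exact this

lemma star_rho (g : G) : star (rho g) = rho g⁻¹ := by
  apply op_ext
  intro b
  have := xt_dl (fun h => h * g) (mul_left_injective g) b
  rw [rho_dl, inv_inv]
  exact this

/-- operators commuting with the right regular representation -/
def VN (G : Type) [Group G] : Set (BH G) := {x | ∀ g : G, x * rho g = rho g * x}

namespace VN

variable {x y : BH G}

lemma comm (hx : x ∈ VN G) (g : G) (ξ : Hs G) : x (rho g ξ) = rho g (x ξ) :=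
  congrArg (fun z : BH G => z ξ) (hx g)

lemma apply_dl (hx : x ∈ VN G) (g h : G) : x (dl g) h = x (dl 1) (h * g⁻¹) := by
  have h1 : (dl g : Hs G) = rho g⁻¹ (dl 1) := by rw [rho_dl]; simp
  rw [h1, comm hx, rho_apply]

lemma ext (hx : x ∈ VN G) (hy : y ∈ VN G) (h : x (dl 1) = y (dl 1)) : x = y := by
  apply op_ext
  intro g
  apply hs_ext
  intro k
  rw [apply_dl hx, apply_dl hy, h]

lemma one_mem : (1 : BH G) ∈ VN G := fun g => by simp
lemma zero_mem : (0 : BH G) ∈ VN G := fun g => by simp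
lemma mul_mem (hx : x ∈ VN G) (hy : y ∈ VN G) : x * y ∈ VN G := fun g => by
  rw [mul_assoc, hy g, ← mul_assoc, hx g, mul_assoc]
lemma add_mem (hx : x ∈ VN G) (hy : y ∈ VN G) : x + y ∈ VN G := fun g => by
  rw [add_mul, hx g, hy g, mul_add]
lemma sub_mem (hx : x ∈ VN G) (hy : y ∈ VN G) : x - y ∈ VN G := fun g => by
  rw [sub_mul, hx g, hy g, mul_sub]
lemma smul_mem (c : ℂ) (hx : x ∈ VN G) : c • x ∈ VN G := fun g => by
  rw [smul_mul_assoc, hx g, mul_smul_comm]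
lemma star_mem (hx : x ∈ VN G) : star x ∈ VN G := fun g => by
  have := congrArg star (hx g⁻¹)
  rw [star_mul, star_mul, star_rho, inv_inv] at this
  exact this.symm

lemma star_coeff (hx : x ∈ VN G) (g : G) :
    star x (dl 1) g = (starRingEnd ℂ) (x (dl 1) g⁻¹) := by
  rw [← inner_dl_left g, ContinuousLinearMap.star_eq_adjoint,
    ContinuousLinearMap.adjoint_inner_right, inner_dl_right, apply_dl hx, one_mul]

lemma norm_star (hx : x ∈ VN G) : ‖star x (dl 1)‖ = ‖x (dl 1)‖ := by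
  have : ‖star x (dl 1)‖ ^ 2 = ‖x (dl 1)‖ ^ 2 := by
    rw [nsq, nsq, ← (Equiv.inv G).tsum_eq]
    apply tsum_congr
    intro g
    rw [star_coeff hx]
    simp
  exact (pow_left_inj₀ (norm_nonneg _) (norm_nonneg _) two_ne_zero).1 this

end VN

end

section sub

variable {G : Type} [Group G] (H : Subgroup G)

/-- `(R_g ξ)(h) = ξ(h g)` for `h ∈ H` -/
noncomputable def Rm (g : G) : Hs G →L[ℂ] Hs H :=
  res (fun h : H => (h : G) * g) (fun _ _ e => Subtype.ext (mul_right_cancel e))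

@[simp] lemma Rm_apply (g : G) (ξ : Hs G) (h : H) : Rm H g ξ h = ξ (h * g) := rfl

lemma Rm_mul (h : H) (g : G) (ξ : Hs G) : Rm H (h * g) ξ = rho h (Rm H g ξ) := by
  apply hs_ext; intro k
  simp [mul_assoc]

lemma Rm_ext {x y : Hs G} (h : ∀ g, Rm H g x = Rm H g y) : x = y := by
  apply hs_ext; intro g
  have := congrArg (fun z : Hs H => z 1) (h g)
  simpa using this

/-- pointwise formula for the extension -/
noncomputable def tlFun (x : BH H) : Hs G →ₗ[ℂ] (G → ℂ) where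
  toFun ξ g := x (Rm H g ξ) 1
  map_add' ξ η := by ext; simp
  map_smul' c ξ := by ext; simp

lemma tlFun_apply (x : BH H) (ξ : Hs G) (g : G) : tlFun H x ξ g = x (Rm H g ξ) 1 := rfl

lemma tlFun_mul {x : BH H} (hx : x ∈ VN H) (ξ : Hs G) (h : H) (g : G) :
    tlFun H x ξ (h * g) = x (Rm H g ξ) h := by
  rw [tlFun_apply, Rm_mul, VN.comm hx, rho_apply, one_mul]

lemma tl_bound {x : BH H} (hx : x ∈ VN H) (ξ : Hs G) :
    (Summable fun g => ‖tlFun H x ξ g‖ ^ 2) ∧ ∑' g, ‖tlFun H x ξ g‖ ^ 2 ≤ (‖x‖ * ‖ξ‖) ^ 2 := by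
  obtain ⟨T, hT, -⟩ := Subgroup.exists_isComplement_right H 1
  let e : T × H ≃ G := (Equiv.prodComm T H).trans (Equiv.ofBijective _ hT)
  have he : ∀ p : T × H, e p = (p.2 : G) * (p.1 : G) := fun p => rfl
  have s1 : Summable fun p : T × H => ‖ξ (e p)‖ ^ 2 := (summ ξ).comp_injective e.injective
  have n1 : ∀ t : T, ‖Rm H (t : G) ξ‖ ^ 2 = ∑' h : H, ‖ξ (e (t, h))‖ ^ 2 := by
    intro t; rw [nsq]; rfl
  have s2 : Summable fun t : T => ‖Rm H (t : G) ξ‖ ^ 2 := by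
    simp only [n1]; exact s1.prod
  have b1 : ∀ t : T, ‖x (Rm H (t : G) ξ)‖ ^ 2 ≤ ‖x‖ ^ 2 * ‖Rm H (t : G) ξ‖ ^ 2 := by
    intro t
    rw [← mul_pow]
    gcongr
    exact x.le_opNorm _
  have s3 : Summable fun t : T => ‖x (Rm H (t : G) ξ)‖ ^ 2 :=
    Summable.of_nonneg_of_le (fun _ => by positivity) b1 (s2.mul_left _)
  have n2 : ∀ t : T, ‖x (Rm H (t : G) ξ)‖ ^ 2 = ∑' h : H, ‖tlFun H x ξ (e (t, h))‖ ^ 2 := by
    intro t; rw [nsq]
    apply tsum_congr
    intro h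
    rw [he, tlFun_mul H hx]
  have s4 : Summable fun p : T × H => ‖tlFun H x ξ (e p)‖ ^ 2 := by
    rw [summable_prod_of_nonneg (fun _ => by positivity)]
    refine ⟨fun t => ?_, ?_⟩
    · have : (fun h : H => ‖tlFun H x ξ (e (t, h))‖ ^ 2) =
          fun h => ‖x (Rm H (t : G) ξ) h‖ ^ 2 := by
        ext h; rw [he, tlFun_mul H hx]
      rw [this]; exact summ _
    · simp only [← n2]; exact s3
  have s5 : Summable fun g => ‖tlFun H x ξ g‖ ^ 2 := e.summable_iff.1 s4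
  refine ⟨s5, ?_⟩
  rw [← e.tsum_eq, s4.tsum_prod]
  simp only [← n2]
  calc ∑' t : T, ‖x (Rm H (t : G) ξ)‖ ^ 2 ≤ ∑' t : T, ‖x‖ ^ 2 * ‖Rm H (t : G) ξ‖ ^ 2 :=
        s3.tsum_le_tsum b1 (s2.mul_left _)
    _ = ‖x‖ ^ 2 * ∑' t : T, ‖Rm H (t : G) ξ‖ ^ 2 := tsum_mul_left
    _ = (‖x‖ * ‖ξ‖) ^ 2 := by
        simp only [n1]
        rw [← s1.tsum_prod, e.tsum_eq (fun g => ‖ξ g‖ ^ 2), ← nsq, mul_pow]

open Classical in
/-- extension of an operator on `ℓ²(H)` commuting with `ρ(H)` to `ℓ²(G)` -/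
noncomputable def tl (x : BH H) : BH G :=
  if hx : x ∈ VN H then
    opOf (tlFun H x) ‖x‖ (norm_nonneg _) (fun ξ => (tl_bound H hx ξ).1)
      (fun ξ => (tl_bound H hx ξ).2)
  else 0

variable {H}

lemma tl_apply {x : BH H} (hx : x ∈ VN H) (ξ : Hs G) (g : G) : tl H x ξ g = x (Rm H g ξ) 1 := by
  unfold tl; rw [dif_pos hx]; rfl

lemma norm_tl_le {x : BH H} (hx : x ∈ VN H) : ‖tl H x‖ ≤ ‖x‖ := by
  unfold tl; rw [dif_pos hx]; exact norm_opOf_le _ _ _ _ _

lemma Rm_tl {x : BH H} (hx : x ∈ VN H) (g : G) (ξ : Hs G) : Rm H g (tl H x ξ) = x (Rm H g ξ) := by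
  apply hs_ext; intro h
  rw [Rm_apply, tl_apply hx, ← tlFun_apply, tlFun_mul H hx]

lemma tl_mem {x : BH H} (hx : x ∈ VN H) : tl H x ∈ VN G := by
  intro k
  ext ξ : 1
  apply Rm_ext H
  intro g
  simp only [mul_apply_eq_comp]
  rw [Rm_tl hx]
  have e : ∀ η : Hs G, Rm H g (rho k η) = Rm H (g * k) η := by
    intro η; apply hs_ext; intro h; simp [mul_assoc]
  rw [e, e, Rm_tl hx]

/-- compression to `ℓ²(H)` -/
noncomputable def cp (H : Subgroup G) (y : BH G) : BH H :=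
  (Rm H 1).comp (y.comp (ContinuousLinearMap.adjoint (Rm H 1)))

lemma cp_apply (y : BH G) (ζ : Hs H) :
    cp H y ζ = Rm H 1 (y (ContinuousLinearMap.adjoint (Rm H 1) ζ)) := rfl

lemma inj1 : Injective (fun h : H => (h : G) * 1) := fun _ _ e => Subtype.ext (mul_right_cancel e)

lemma Rm_adj : ContinuousLinearMap.adjoint (Rm H (1 : G)) = xt (fun h : H => (h : G) * 1) inj1 := rfl

lemma Rm_adj_dl (h : H) : ContinuousLinearMap.adjoint (Rm H (1 : G)) (dl h) = dl (h : G) := by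
  rw [Rm_adj, xt_dl]; simp

lemma Rm_adj_apply (ζ : Hs H) (h : H) :
    ContinuousLinearMap.adjoint (Rm H (1 : G)) ζ (h : G) = ζ h := by
  rw [Rm_adj]
  have := xt_apply (fun h : H => (h : G) * 1) inj1 ζ h
  simpa using this

lemma Rm_adj_apply_of_not_mem (ζ : Hs H) (g : G) (hg : g ∉ H) :
    ContinuousLinearMap.adjoint (Rm H (1 : G)) ζ g = 0 := by
  rw [Rm_adj]
  apply xt_apply_of_not_mem
  rintro b rfl
  exact hg (by simp)

lemma Rm_Rm_adj (ζ : Hs H) : Rm H 1 (ContinuousLinearMap.adjoint (Rm H (1 : G)) ζ) = ζ :=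
  res_xt _ inj1 ζ

lemma norm_Rm_le (g : G) : ‖Rm H g‖ ≤ 1 := norm_res_le _ _

lemma norm_cp_le (y : BH G) : ‖cp H y‖ ≤ ‖y‖ := by
  unfold cp
  calc _ ≤ ‖Rm H (1 : G)‖ * ‖y.comp (ContinuousLinearMap.adjoint (Rm H 1))‖ :=
        ContinuousLinearMap.opNorm_comp_le _ _
    _ ≤ 1 * (‖y‖ * ‖ContinuousLinearMap.adjoint (Rm H (1 : G))‖) := by
        gcongr
        · exact norm_Rm_le _
        · exact ContinuousLinearMap.opNorm_comp_le _ _
    _ ≤ 1 * (‖y‖ * 1) := by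
        gcongr
        rw [LinearIsometryEquiv.norm_map]; exact norm_Rm_le _
    _ = ‖y‖ := by ring

lemma Rm_rho (h : H) (ξ : Hs G) : Rm H 1 (rho (h : G) ξ) = rho h (Rm H 1 ξ) := by
  apply hs_ext; intro k; simp

lemma adj_rho (h : H) (ζ : Hs H) : ContinuousLinearMap.adjoint (Rm H (1 : G)) (rho h ζ) =
    rho (h : G) (ContinuousLinearMap.adjoint (Rm H (1 : G)) ζ) := by
  apply hs_ext; intro g
  by_cases hg : g ∈ H
  · have e1 := Rm_adj_apply (G := G) (rho h ζ) ⟨g, hg⟩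
    have e2 := Rm_adj_apply (G := G) ζ (⟨g, hg⟩ * h)
    simp only [Subgroup.coe_mul, rho_apply] at e1 e2
    rw [e1, rho_apply, e2]
  · rw [Rm_adj_apply_of_not_mem _ _ hg, rho_apply, Rm_adj_apply_of_not_mem]
    intro h'
    exact hg ((H.mul_mem_cancel_right h.2).1 h')

lemma cp_mem {y : BH G} (hy : y ∈ VN G) : cp H y ∈ VN H := by
  intro h
  ext ζ : 1
  simp only [mul_apply_eq_comp, cp_apply]
  rw [adj_rho, VN.comm hy, Rm_rho]

/-- elements of `VN G` supported on `H` -/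
def VS (H : Subgroup G) : Set (BH G) := {y | y ∈ VN G ∧ ∀ g, g ∉ H → y (dl 1) g = 0}

lemma Rm_dl_one (h : H) : Rm H (h : G) (dl 1) = dl h⁻¹ := by
  apply hs_ext; intro k
  rw [Rm_apply]
  by_cases hk : k = h⁻¹
  · subst hk; simp
  · rw [dl_ne hk, dl_ne]
    intro e
    exact hk (by ext; simpa using eq_inv_of_mul_eq_one_left e)

lemma Rm_dl_one_of_not_mem {g : G} (hg : g ∉ H) : Rm H g (dl 1) = 0 := by
  apply hs_ext; intro k
  rw [Rm_apply, dl_ne]
  · rfl
  · intro e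
    apply hg
    rw [(inv_eq_of_mul_eq_one_right e).symm]
    exact H.inv_mem k.2

lemma tl_dl {x : BH H} (hx : x ∈ VN H) (h : H) : tl H x (dl 1) (h : G) = x (dl 1) h := by
  rw [tl_apply hx, Rm_dl_one, VN.apply_dl hx]; simp

lemma tl_dl_of_not_mem {x : BH H} (hx : x ∈ VN H) {g : G} (hg : g ∉ H) :
    tl H x (dl 1) g = 0 := by
  rw [tl_apply hx, Rm_dl_one_of_not_mem hg]; simp

lemma tl_mem_VS {x : BH H} (hx : x ∈ VN H) : tl H x ∈ VS H :=
  ⟨tl_mem hx, fun _ hg => tl_dl_of_not_mem hx hg⟩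

lemma cp_dl (y : BH G) (h : H) : cp H y (dl 1) h = y (dl 1) (h : G) := by
  rw [cp_apply, Rm_adj_dl, Rm_apply]; simp

lemma tl_cp {y : BH G} (hy : y ∈ VS H) : tl H (cp H y) = y := by
  apply VN.ext (tl_mem (cp_mem hy.1)) hy.1
  apply hs_ext; intro g
  by_cases hg : g ∈ H
  · have := tl_dl (cp_mem hy.1) ⟨g, hg⟩
    rw [this, cp_dl]
  · rw [tl_dl_of_not_mem (cp_mem hy.1) hg, hy.2 g hg]

lemma cp_tl {x : BH H} (hx : x ∈ VN H) : cp H (tl H x) = x := by
  ext ζ : 1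
  rw [cp_apply, Rm_tl hx, Rm_Rm_adj]

lemma norm_cp {y : BH G} (hy : y ∈ VS H) : ‖cp H y‖ = ‖y‖ := by
  apply le_antisymm (norm_cp_le y)
  conv_lhs => rw [← tl_cp hy]
  exact norm_tl_le (cp_mem hy.1)

/-- conditional expectation -/
noncomputable def ce (H : Subgroup G) (y : BH G) : BH G := tl H (cp H y)

lemma ce_mem {y : BH G} (hy : y ∈ VN G) : ce H y ∈ VS H := tl_mem_VS (cp_mem hy)

lemma norm_ce_le {y : BH G} (hy : y ∈ VN G) : ‖ce H y‖ ≤ ‖y‖ :=
  (norm_tl_le (cp_mem hy)).trans (norm_cp_le y)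

lemma ce_dl {y : BH G} (hy : y ∈ VN G) {g : G} (hg : g ∈ H) : ce H y (dl 1) g = y (dl 1) g := by
  have := tl_dl (cp_mem (H := H) hy) ⟨g, hg⟩
  unfold ce
  rw [this, cp_dl]

lemma ce_dl_of_not_mem {y : BH G} (hy : y ∈ VN G) {g : G} (hg : g ∉ H) :
    ce H y (dl 1) g = 0 := (ce_mem hy).2 g hg

/-- the key commutation: `y R₁* = R₁* cp y` on `VS H` -/
lemma adj_cp {y : BH G} (hy : y ∈ VS H) (ζ : Hs H) :
    ContinuousLinearMap.adjoint (Rm H (1 : G)) (cp H y ζ) =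
      y (ContinuousLinearMap.adjoint (Rm H (1 : G)) ζ) := by
  set R := ContinuousLinearMap.adjoint (Rm H (1 : G)) with hR
  have : R.comp (cp H y) = y.comp R := by
    apply op_ext
    intro h
    simp only [ContinuousLinearMap.comp_apply]
    apply hs_ext; intro g
    rw [hR, Rm_adj_dl, VN.apply_dl hy.1]
    by_cases hg : g ∈ H
    · have e := Rm_adj_apply (G := G) (cp H y (dl h)) ⟨g, hg⟩
      simp only at e
      rw [e, VN.apply_dl (cp_mem hy.1), cp_dl]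
      rfl
    · rw [Rm_adj_apply_of_not_mem _ _ hg, hy.2]
      intro h'
      exact hg ((H.mul_mem_cancel_right (H.inv_mem h.2)).1 h')
  exact congrArg (fun z : Hs H →L[ℂ] Hs G => z ζ) this

lemma cp_mul {y z : BH G} (hz : z ∈ VS H) : cp H (y * z) = cp H y * cp H z := by
  ext ζ : 1
  rw [mul_apply_eq_comp, cp_apply, cp_apply y, adj_cp hz, mul_apply_eq_comp]

lemma cp_star (y : BH G) : cp H (star y) = star (cp H y) := by
  simp only [ContinuousLinearMap.star_eq_adjoint, cp, ContinuousLinearMap.adjoint_comp,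
    ContinuousLinearMap.adjoint_adjoint, ContinuousLinearMap.comp_assoc]

lemma cp_add (y z : BH G) : cp H (y + z) = cp H y + cp H z := by
  ext ζ : 1
  simp [cp_apply]

lemma cp_smul (c : ℂ) (y : BH G) : cp H (c • y) = c • cp H y := by
  ext ζ : 1
  simp [cp_apply]

lemma cp_one : cp H (1 : BH G) = 1 := by
  ext ζ : 1
  rw [cp_apply, one_apply_eq_self, Rm_Rm_adj, one_apply_eq_self]

lemma VS.mul {y z : BH G} (hy : y ∈ VS H) (hz : z ∈ VS H) : y * z ∈ VS H := by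
  refine ⟨VN.mul_mem hy.1 hz.1, fun g hg => ?_⟩
  have h1 : (dl (1 : G) : Hs G) = ContinuousLinearMap.adjoint (Rm H (1 : G)) (dl 1) := by
    rw [Rm_adj_dl]; rfl
  rw [mul_apply_eq_comp, h1, ← adj_cp hz, ← adj_cp hy,
    Rm_adj_apply_of_not_mem _ _ hg]

lemma VS.one : (1 : BH G) ∈ VS H := by
  refine ⟨VN.one_mem, fun g hg => ?_⟩
  rw [one_apply_eq_self, dl_ne]
  rintro rfl; exact hg H.one_mem

lemma VS.zero : (0 : BH G) ∈ VS H := ⟨VN.zero_mem, fun g hg => by simp⟩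

lemma VS.add {y z : BH G} (hy : y ∈ VS H) (hz : z ∈ VS H) : y + z ∈ VS H := by
  refine ⟨VN.add_mem hy.1 hz.1, fun g hg => ?_⟩
  simp [hy.2 g hg, hz.2 g hg]

lemma VS.smul (c : ℂ) {y : BH G} (hy : y ∈ VS H) : c • y ∈ VS H := by
  refine ⟨VN.smul_mem c hy.1, fun g hg => ?_⟩
  simp [hy.2 g hg]

lemma VS.star {y : BH G} (hy : y ∈ VS H) : star y ∈ VS H := by
  refine ⟨VN.star_mem hy.1, fun g hg => ?_⟩
  rw [VN.star_coeff hy.1, hy.2 _ (fun h => hg (by simpa using H.inv_mem h))]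
  simp

end sub

end Pool.Agent.Helper88.EC
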