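import Mathlib
import Pool.Agent.Helper88.EC.Reg
import Pool.Agent.Helper88.EC.Logic

set_option autoImplicit false

open Function
open scoped ENNReal InnerProductSpace

namespace Pool.Agent.Helper88.EC

section real

variable {α : Type}

lemma sInf_close {s : Set α} (hs : s.Nonempty) {f g : α → ℝ} {C : ℝ} (hf : ∀ x ∈ s, |f x| ≤ C)
    (hg : ∀ x ∈ s, |g x| ≤ C) {ε : ℝ} (h : ∀ x ∈ s, |f x - g x| ≤ ε) :
    |sInf (f '' s) - sInf (g '' s)| ≤ ε := by
  have bf : BddBelow (f '' s) := ⟨-C, by rintro _ ⟨x, hx, rfl⟩; exact (abs_le.1 (hf x hx)).1⟩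
  have bg : BddBelow (g '' s) := ⟨-C, by rintro _ ⟨x, hx, rfl⟩; exact (abs_le.1 (hg x hx)).1⟩
  rw [abs_le]
  constructor
  · have : sInf (g '' s) - ε ≤ sInf (f '' s) := by
      apply le_csInf (hs.image _)
      rintro _ ⟨x, hx, rfl⟩
      have h1 := csInf_le bg ⟨x, hx, rfl⟩
      have h2 := (abs_le.1 (h x hx)).1
      linarith
    linarith
  · have : sInf (f '' s) - ε ≤ sInf (g '' s) := by
      apply le_csInf (hs.image _)
      rintro _ ⟨x, hx, rfl⟩
      have h1 := csInf_le bf ⟨x, hx, rfl⟩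
      have h2 := (abs_le.1 (h x hx)).2
      linarith
    linarith

lemma sSup_close {s : Set α} (hs : s.Nonempty) {f g : α → ℝ} {C : ℝ} (hf : ∀ x ∈ s, |f x| ≤ C)
    (hg : ∀ x ∈ s, |g x| ≤ C) {ε : ℝ} (h : ∀ x ∈ s, |f x - g x| ≤ ε) :
    |sSup (f '' s) - sSup (g '' s)| ≤ ε := by
  have bf : BddAbove (f '' s) := ⟨C, by rintro _ ⟨x, hx, rfl⟩; exact (abs_le.1 (hf x hx)).2⟩
  have bg : BddAbove (g '' s) := ⟨C, by rintro _ ⟨x, hx, rfl⟩; exact (abs_le.1 (hg x hx)).2⟩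
  rw [abs_le]
  constructor
  · have : sSup (g '' s) ≤ sSup (f '' s) + ε := by
      apply csSup_le (hs.image _)
      rintro _ ⟨x, hx, rfl⟩
      have h1 := le_csSup bf ⟨x, hx, rfl⟩
      have h2 := (abs_le.1 (h x hx)).1
      linarith
    linarith
  · have : sSup (f '' s) ≤ sSup (g '' s) + ε := by
      apply csSup_le (hs.image _)
      rintro _ ⟨x, hx, rfl⟩
      have h1 := le_csSup bg ⟨x, hx, rfl⟩
      have h2 := (abs_le.1 (h x hx)).2
      linarith
    linarith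

lemma abs_sInf_le {s : Set α} (hs : s.Nonempty) {f : α → ℝ} {C : ℝ} (hf : ∀ x ∈ s, |f x| ≤ C) :
    |sInf (f '' s)| ≤ C := by
  have bf : BddBelow (f '' s) := ⟨-C, by rintro _ ⟨x, hx, rfl⟩; exact (abs_le.1 (hf x hx)).1⟩
  rw [abs_le]
  constructor
  · apply le_csInf (hs.image _)
    rintro _ ⟨x, hx, rfl⟩
    exact (abs_le.1 (hf x hx)).1
  · obtain ⟨x, hx⟩ := hs
    exact (csInf_le bf ⟨x, hx, rfl⟩).trans (abs_le.1 (hf x hx)).2

lemma abs_sSup_le {s : Set α} (hs : s.Nonempty) {f : α → ℝ} {C : ℝ} (hf : ∀ x ∈ s, |f x| ≤ C) :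
    |sSup (f '' s)| ≤ C := by
  have bf : BddAbove (f '' s) := ⟨C, by rintro _ ⟨x, hx, rfl⟩; exact (abs_le.1 (hf x hx)).2⟩
  rw [abs_le]
  constructor
  · obtain ⟨x, hx⟩ := hs
    exact (abs_le.1 (hf x hx)).1.trans (le_csSup bf ⟨x, hx, rfl⟩)
  · apply csSup_le (hs.image _)
    rintro _ ⟨x, hx, rfl⟩
    exact (abs_le.1 (hf x hx)).2

lemma exists_common_pos {k : ℕ} (d : Fin k → ℝ) (hd : ∀ i, 0 < d i) :
    ∃ δ > 0, ∀ i, δ ≤ d i := by
  induction k with
  | zero => exact ⟨1, one_pos, fun i => i.elim0⟩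
  | succ k ih =>
    obtain ⟨δ, h0, h⟩ := ih (fun i => d i.succ) (fun i => hd _)
    refine ⟨min δ (d 0), lt_min h0 (hd 0), ?_⟩
    intro i
    refine Fin.cases ?_ ?_ i
    · exact min_le_right _ _
    · intro j; exact (min_le_left _ _).trans (h j)

lemma exists_common_bound {k : ℕ} (d : Fin k → ℝ) : ∃ C : ℝ, 0 ≤ C ∧ ∀ i, d i ≤ C := by
  refine ⟨∑ i, |d i|, Finset.sum_nonneg fun i _ => abs_nonneg _, fun i => ?_⟩
  exact (le_abs_self _).trans (Finset.single_le_sum (f := fun i => |d i|)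
    (fun i _ => abs_nonneg _) (Finset.mem_univ i))

lemma exists_common_nat {k : ℕ} (d : Fin k → ℕ) : ∃ C : ℕ, ∀ i, d i ≤ C :=
  ⟨∑ i, d i, fun i => Finset.single_le_sum (f := d) (fun i _ => Nat.zero_le _) (Finset.mem_univ i)⟩

end real

section

variable {G : Type} [Group G]

/-- trace `τ(x) = ⟨x δ_e, δ_e⟩` -/
noncomputable def tr (x : BH G) : ℂ := ⟪dl (1 : G), x (dl 1)⟫_ℂ

/-- the ball of radius `R` of tuples -/
def Bal (G : Type) [Group G] (n R : ℕ) : Set (Fin n → BH G) :=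
  {a | ∀ i, a i ∈ VN G ∧ ‖a i‖ ≤ R}

lemma Bal_mono {n R R' : ℕ} (h : R ≤ R') : Bal G n R ⊆ Bal G n R' := fun a ha i =>
  ⟨(ha i).1, (ha i).2.trans (by exact_mod_cast h)⟩

lemma cons_mem_Bal {n R N : ℕ} {x : BH G} {a : Fin n → BH G} (hx : x ∈ VN G) (hN : ‖x‖ ≤ N)
    (ha : a ∈ Bal G n R) : (Fin.cons x a : Fin (n + 1) → BH G) ∈ Bal G (n + 1) (max R N) := by
  intro i
  refine Fin.cases ?_ ?_ i
  · exact ⟨hx, hN.trans (by exact_mod_cast le_max_right _ _)⟩
  · intro j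
    exact ⟨(ha j).1, (ha j).2.trans (by exact_mod_cast le_max_left _ _)⟩

lemma term_mem {n : ℕ} (t : Tm n) (a : Fin n → BH G) (ha : ∀ i, a i ∈ VN G) :
    t.eval a ∈ VN G := by
  induction t with
  | var i => exact ha i
  | zero => exact VN.zero_mem
  | one => exact VN.one_mem
  | add s t ihs iht => exact VN.add_mem ihs iht
  | mul s t ihs iht => exact VN.mul_mem ihs iht
  | star t ih => exact VN.star_mem ih
  | smul c t ih => exact VN.smul_mem c ih

lemma norm_one_le : ‖(1 : BH G)‖ ≤ 1 := ContinuousLinearMap.norm_id_le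

lemma term_bound {n : ℕ} (t : Tm n) (R : ℕ) : ∃ C : ℝ, 0 ≤ C ∧ ∀ a : Fin n → BH G,
    (∀ i, ‖a i‖ ≤ R) → ‖t.eval a‖ ≤ C := by
  induction t with
  | var i => exact ⟨R, by positivity, fun a ha => ha i⟩
  | zero => exact ⟨0, le_rfl, fun a ha => by simp [Tm.eval]⟩
  | one => exact ⟨1, zero_le_one, fun a ha => norm_one_le⟩
  | add s t ihs iht =>
    obtain ⟨C, hC, h⟩ := ihs
    obtain ⟨D, hD, h'⟩ := iht
    exact ⟨C + D, by positivity, fun a ha => (norm_add_le _ _).trans (add_le_add (h a ha) (h' a ha))⟩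
  | mul s t ihs iht =>
    obtain ⟨C, hC, h⟩ := ihs
    obtain ⟨D, hD, h'⟩ := iht
    exact ⟨C * D, by positivity, fun a ha => (norm_mul_le _ _).trans
      (mul_le_mul (h a ha) (h' a ha) (norm_nonneg _) hC)⟩
  | star t ih =>
    obtain ⟨C, hC, h⟩ := ih
    exact ⟨C, hC, fun a ha => by simp only [Tm.eval]; rw [norm_star]; exact h a ha⟩
  | smul c t ih =>
    obtain ⟨C, hC, h⟩ := ih
    exact ⟨‖c‖ * C, by positivity, fun a ha => by
      simp only [Tm.eval]; rw [norm_smul]; gcongr; exact h a ha⟩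

lemma n2_mul_left (x y : BH G) : ‖(x * y) (dl 1)‖ ≤ ‖x‖ * ‖y (dl 1)‖ := x.le_opNorm _

lemma n2_mul_right {x y : BH G} (hx : x ∈ VN G) (hy : y ∈ VN G) :
    ‖(x * y) (dl 1)‖ ≤ ‖y‖ * ‖x (dl 1)‖ := by
  rw [← VN.norm_star (VN.mul_mem hx hy), star_mul, ← VN.norm_star hx, ← norm_star y]
  exact n2_mul_left _ _

lemma term_lip {n : ℕ} (t : Tm n) (R : ℕ) : ∃ L : ℝ, 0 ≤ L ∧ ∀ a ∈ Bal G n R, ∀ b ∈ Bal G n R,
    ∀ δ : ℝ, 0 ≤ δ → (∀ i, ‖(a i - b i) (dl 1)‖ ≤ δ) →
      ‖(t.eval a - t.eval b) (dl 1)‖ ≤ L * δ := by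
  induction t with
  | var i => exact ⟨1, zero_le_one, fun a ha b hb δ hδ h => by rw [one_mul]; exact h i⟩
  | zero => exact ⟨0, le_rfl, fun a ha b hb δ hδ h => by simp [Tm.eval]⟩
  | one => exact ⟨0, le_rfl, fun a ha b hb δ hδ h => by simp [Tm.eval]⟩
  | add s t ihs iht =>
    obtain ⟨C, hC, h⟩ := ihs
    obtain ⟨D, hD, h'⟩ := iht
    refine ⟨C + D, by positivity, fun a ha b hb δ hδ hab => ?_⟩
    simp only [Tm.eval]
    have e : s.eval a + t.eval a - (s.eval b + t.eval b) =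
        (s.eval a - s.eval b) + (t.eval a - t.eval b) := by abel
    rw [e, add_apply, add_mul]
    exact (norm_add_le _ _).trans (add_le_add (h a ha b hb δ hδ hab) (h' a ha b hb δ hδ hab))
  | mul s t ihs iht =>
    obtain ⟨C, hC, h⟩ := ihs
    obtain ⟨D, hD, h'⟩ := iht
    obtain ⟨S, hS, bs⟩ := term_bound (G := G) s R
    obtain ⟨T, hT, bt⟩ := term_bound (G := G) t R
    refine ⟨S * D + T * C, by positivity, fun a ha b hb δ hδ hab => ?_⟩
    simp only [Tm.eval]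
    have e : s.eval a * t.eval a - s.eval b * t.eval b =
        s.eval a * (t.eval a - t.eval b) + (s.eval a - s.eval b) * t.eval b := by noncomm_ring
    rw [e, add_apply]
    refine (norm_add_le _ _).trans ?_
    have h1 : ‖(s.eval a * (t.eval a - t.eval b)) (dl 1)‖ ≤ S * (D * δ) := by
      refine (n2_mul_left _ _).trans ?_
      exact mul_le_mul (bs a fun i => (ha i).2) (h' a ha b hb δ hδ hab) (norm_nonneg _) hS
    have h2 : ‖((s.eval a - s.eval b) * t.eval b) (dl 1)‖ ≤ T * (C * δ) := by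
      refine (n2_mul_right (VN.sub_mem (term_mem s a fun i => (ha i).1)
        (term_mem s b fun i => (hb i).1)) (term_mem t b fun i => (hb i).1)).trans ?_
      exact mul_le_mul (bt b fun i => (hb i).2) (h a ha b hb δ hδ hab) (norm_nonneg _) hT
    calc _ ≤ S * (D * δ) + T * (C * δ) := add_le_add h1 h2
      _ = _ := by ring
  | star t ih =>
    obtain ⟨C, hC, h⟩ := ih
    refine ⟨C, hC, fun a ha b hb δ hδ hab => ?_⟩
    simp only [Tm.eval]
    rw [← star_sub, VN.norm_star (VN.sub_mem (term_mem t a fun i => (ha i).1)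
        (term_mem t b fun i => (hb i).1))]
    exact h a ha b hb δ hδ hab
  | smul c t ih =>
    obtain ⟨C, hC, h⟩ := ih
    refine ⟨‖c‖ * C, by positivity, fun a ha b hb δ hδ hab => ?_⟩
    simp only [Tm.eval]
    rw [← smul_sub, smul_apply, norm_smul, mul_assoc]
    gcongr
    exact h a ha b hb δ hδ hab

lemma tr_sub (x y : BH G) : tr (x - y) = tr x - tr y := by
  unfold tr
  rw [sub_apply, inner_sub_right]

lemma norm_tr_le (x : BH G) : ‖tr x‖ ≤ ‖x (dl 1)‖ := by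
  unfold tr
  calc _ ≤ ‖dl (1 : G)‖ * ‖x (dl 1)‖ := norm_inner_le_norm _ _
    _ = _ := by rw [norm_dl, one_mul]

lemma abs_re_tr (x y : BH G) : |(tr x).re - (tr y).re| ≤ ‖(x - y) (dl 1)‖ := by
  rw [← Complex.sub_re, ← tr_sub]
  exact (Complex.abs_re_le_norm _).trans (norm_tr_le _)

lemma abs_im_tr (x y : BH G) : |(tr x).im - (tr y).im| ≤ ‖(x - y) (dl 1)‖ := by
  rw [← Complex.sub_im, ← tr_sub]
  exact (Complex.abs_im_le_norm _).trans (norm_tr_le _)

lemma dist_eq (z : BH G) : Real.sqrt (tr (star z * z)).re = ‖z (dl 1)‖ := by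
  unfold tr
  rw [mul_apply_eq_comp, ContinuousLinearMap.star_eq_adjoint,
    ContinuousLinearMap.adjoint_inner_right]
  rw [inner_self_eq_norm_sq_to_K]
  have : (((‖z (dl 1)‖ : ℂ)) ^ 2).re = ‖z (dl 1)‖ ^ 2 := by norm_cast
  rw [show (RCLike.ofReal ‖z (dl 1)‖ : ℂ) = ((‖z (dl 1)‖ : ℝ) : ℂ) from rfl, this,
    Real.sqrt_sq (norm_nonneg _)]

/-- bounded and uniformly continuous for the 2-norm on operator norm balls -/
def Nice {n : ℕ} (f : (Fin n → BH G) → ℝ) : Prop :=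
  ∀ R : ℕ, (∃ C : ℝ, 0 ≤ C ∧ ∀ a ∈ Bal G n R, |f a| ≤ C) ∧
    (∀ ε : ℝ, 0 < ε → ∃ δ : ℝ, 0 < δ ∧ ∀ a ∈ Bal G n R, ∀ b ∈ Bal G n R,
      (∀ i, ‖(a i - b i) (dl 1)‖ < δ) → |f a - f b| ≤ ε)

lemma nice_of_lip {n : ℕ} (f : (Fin n → BH G) → ℝ)
    (h1 : ∀ R : ℕ, ∃ C : ℝ, 0 ≤ C ∧ ∀ a ∈ Bal G n R, |f a| ≤ C)
    (h2 : ∀ R : ℕ, ∃ L : ℝ, 0 ≤ L ∧ ∀ a ∈ Bal G n R, ∀ b ∈ Bal G n R,
    ∀ δ : ℝ, 0 ≤ δ → (∀ i, ‖(a i - b i) (dl 1)‖ ≤ δ) → |f a - f b| ≤ L * δ) : Nice f := by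
  intro R
  refine ⟨h1 R, fun ε hε => ?_⟩
  obtain ⟨L, hL, h⟩ := h2 R
  refine ⟨ε / (L + 1), by positivity, fun a ha b hb hab => ?_⟩
  refine (h a ha b hb (ε / (L + 1)) (by positivity) (fun i => (hab i).le)).trans ?_
  rw [mul_div_assoc', div_le_iff₀ (by positivity)]
  nlinarith

lemma norm_dl_le (x : BH G) : ‖x (dl 1)‖ ≤ ‖x‖ := by
  have := x.le_opNorm (dl 1)
  rwa [norm_dl, mul_one] at this

theorem nice_val {n : ℕ} (φ : Fml n) : Nice (G := G) (φ.val (VN G) tr) := by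
  induction φ with
  | reTr t =>
    apply nice_of_lip
    · intro R
      obtain ⟨C, hC, h⟩ := term_bound (G := G) t R
      refine ⟨C, hC, fun a ha => ?_⟩
      simp only [Fml.val]
      exact (Complex.abs_re_le_norm _).trans ((norm_tr_le _).trans
        ((norm_dl_le _).trans (h a fun i => (ha i).2)))
    · intro R
      obtain ⟨L, hL, h⟩ := term_lip (G := G) t R
      exact ⟨L, hL, fun a ha b hb δ hδ hab => (abs_re_tr _ _).trans (h a ha b hb δ hδ hab)⟩
  | imTr t =>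
    apply nice_of_lip
    · intro R
      obtain ⟨C, hC, h⟩ := term_bound (G := G) t R
      refine ⟨C, hC, fun a ha => ?_⟩
      simp only [Fml.val]
      exact (Complex.abs_im_le_norm _).trans ((norm_tr_le _).trans
        ((norm_dl_le _).trans (h a fun i => (ha i).2)))
    · intro R
      obtain ⟨L, hL, h⟩ := term_lip (G := G) t R
      exact ⟨L, hL, fun a ha b hb δ hδ hab => (abs_im_tr _ _).trans (h a ha b hb δ hδ hab)⟩
  | dist s t =>
    apply nice_of_lip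
    · intro R
      obtain ⟨C, hC, h⟩ := term_bound (G := G) s R
      obtain ⟨D, hD, h'⟩ := term_bound (G := G) t R
      refine ⟨C + D, by positivity, fun a ha => ?_⟩
      simp only [Fml.val]
      rw [dist_eq, abs_of_nonneg (norm_nonneg _)]
      refine (norm_dl_le _).trans ((norm_sub_le _ _).trans
        (add_le_add (h a fun i => (ha i).2) (h' a fun i => (ha i).2)))
    · intro R
      obtain ⟨L, hL, h⟩ := term_lip (G := G) s R
      obtain ⟨L', hL', h'⟩ := term_lip (G := G) t R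
      refine ⟨L + L', by positivity, fun a ha b hb δ hδ hab => ?_⟩
      simp only [Fml.val]
      rw [dist_eq, dist_eq]
      refine (abs_norm_sub_norm_le _ _).trans ?_
      have e : (s.eval a - t.eval a) (dl 1) - (s.eval b - t.eval b) (dl 1) =
          (s.eval a - s.eval b) (dl 1) - (t.eval a - t.eval b) (dl 1) := by
        simp only [sub_apply]; abel
      rw [e, add_mul]
      exact (norm_sub_le _ _).trans (add_le_add (h a ha b hb δ hδ hab) (h' a ha b hb δ hδ hab))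
  | @conn n k u φ ih =>
    intro R
    choose C hC hCb using fun i => (ih i R).1
    obtain ⟨D, hD, hDb⟩ := exists_common_bound C
    have hb : ∀ a ∈ Bal G n R, (fun i => (φ i).val (VN G) tr a) ∈
        Metric.closedBall (0 : Fin k → ℝ) D := by
      intro a ha
      rw [mem_closedBall_zero_iff, pi_norm_le_iff_of_nonneg hD]
      intro i
      exact (hCb i a ha).trans (hDb i)
    have hK : IsCompact (Metric.closedBall (0 : Fin k → ℝ) D) := isCompact_closedBall _ _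
    refine ⟨?_, ?_⟩
    · obtain ⟨E, hE⟩ := hK.exists_bound_of_continuousOn (f := u) u.continuous.continuousOn
      refine ⟨max E 0, le_max_right _ _, fun a ha => ?_⟩
      exact (hE _ (hb a ha)).trans (le_max_left _ _)
    · intro ε hε
      have huc := hK.uniformContinuousOn_of_continuous (f := u) u.continuous.continuousOn
      rw [Metric.uniformContinuousOn_iff] at huc
      obtain ⟨δ, hδ, h⟩ := huc ε hε
      choose d hd hdb using fun i => (ih i R).2 (δ / 2) (by positivity)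
      obtain ⟨δ', hδ', hδb⟩ := exists_common_pos d hd
      refine ⟨δ', hδ', fun a ha b hb' hab => ?_⟩
      have h1 := h _ (hb a ha) _ (hb b hb') (by
        rw [dist_pi_lt_iff hδ]
        intro i
        rw [Real.dist_eq]
        have := hdb i a ha b hb' (fun j => (hab j).trans_le (hδb i))
        linarith)
      rw [Real.dist_eq] at h1
      exact h1.le
  | @inf n N φ ih =>
    have ne : {x : BH G | x ∈ VN G ∧ ‖x‖ ≤ N}.Nonempty := ⟨0, VN.zero_mem, by simp⟩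
    intro R
    obtain ⟨⟨C, hC, hCb⟩, hu⟩ := ih (max R N)
    have hb : ∀ a ∈ Bal G n R, ∀ x ∈ {x : BH G | x ∈ VN G ∧ ‖x‖ ≤ N},
        |φ.val (VN G) tr (Fin.cons x a)| ≤ C := fun a ha x hx =>
      hCb _ (cons_mem_Bal hx.1 hx.2 ha)
    refine ⟨⟨C, hC, fun a ha => abs_sInf_le ne (hb a ha)⟩, fun ε hε => ?_⟩
    obtain ⟨δ, hδ, h⟩ := hu ε hε
    refine ⟨δ, hδ, fun a ha b hb' hab => ?_⟩
    refine sInf_close ne (hb a ha) (hb b hb') ?_
    intro x hx
    refine h _ (cons_mem_Bal hx.1 hx.2 ha) _ (cons_mem_Bal hx.1 hx.2 hb') ?_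
    intro i
    refine Fin.cases ?_ ?_ i
    · simpa using hδ
    · intro j; simpa using hab j
  | @sup n N φ ih =>
    have ne : {x : BH G | x ∈ VN G ∧ ‖x‖ ≤ N}.Nonempty := ⟨0, VN.zero_mem, by simp⟩
    intro R
    obtain ⟨⟨C, hC, hCb⟩, hu⟩ := ih (max R N)
    have hb : ∀ a ∈ Bal G n R, ∀ x ∈ {x : BH G | x ∈ VN G ∧ ‖x‖ ≤ N},
        |φ.val (VN G) tr (Fin.cons x a)| ≤ C := fun a ha x hx =>
      hCb _ (cons_mem_Bal hx.1 hx.2 ha)
    refine ⟨⟨C, hC, fun a ha => abs_sSup_le ne (hb a ha)⟩, fun ε hε => ?_⟩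
    obtain ⟨δ, hδ, h⟩ := hu ε hε
    refine ⟨δ, hδ, fun a ha b hb' hab => ?_⟩
    refine sSup_close ne (hb a ha) (hb b hb') ?_
    intro x hx
    refine h _ (cons_mem_Bal hx.1 hx.2 ha) _ (cons_mem_Bal hx.1 hx.2 hb') ?_
    intro i
    refine Fin.cases ?_ ?_ i
    · simpa using hδ
    · intro j; simpa using hab j

end

end Pool.Agent.Helper88.EC
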