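import Mathlib
import Pool.Agent.Helper88.EC.Approx

set_option autoImplicit false

open Function TopologicalSpace
open scoped ENNReal InnerProductSpace

namespace Pool.Agent.Helper88.EC

/-- countable set of terms of depth at most `d` -/
noncomputable def ST (n : ℕ) : ℕ → Set (Tm n)
  | 0 => Set.range Tm.var ∪ {Tm.zero, Tm.one}
  | d + 1 => ST n d ∪ (Set.image2 Tm.add (ST n d) (ST n d) ∪ (Set.image2 Tm.mul (ST n d) (ST n d) ∪
      (Tm.star '' ST n d ∪ ⋃ j : ℕ, (Tm.smul (denseSeq ℂ j)) '' ST n d)))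

lemma ST_countable (n d : ℕ) : (ST n d).Countable := by
  induction d with
  | zero => exact (Set.countable_range _).union (Set.toFinite _).countable
  | succ d ih =>
    exact ih.union ((ih.image2 ih _).union ((ih.image2 ih _).union ((ih.image _).union
      (Set.countable_iUnion fun j => ih.image _))))

lemma ST_mono (n : ℕ) {d d' : ℕ} (h : d ≤ d') : ST n d ⊆ ST n d' := by
  induction h with
  | refl => exact subset_rfl
  | step _ ih => exact ih.trans Set.subset_union_left

/-- countable set of formulas of depth at most `d` -/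
noncomputable def SF : ℕ → (n : ℕ) → Set (Fml n)
  | 0, n => ⋃ d : ℕ, (Fml.reTr '' ST n d ∪ (Fml.imTr '' ST n d ∪
      Set.image2 Fml.dist (ST n d) (ST n d)))
  | d + 1, n => SF d n ∪ ((⋃ k : ℕ, ⋃ j : ℕ,
      (Fml.conn k (denseSeq C(Fin k → ℝ, ℝ) j)) '' (Set.univ.pi fun _ : Fin k => SF d n)) ∪
      ((⋃ N : ℕ, Fml.inf N '' SF d (n + 1)) ∪ (⋃ N : ℕ, Fml.sup N '' SF d (n + 1))))

lemma SF_countable (d : ℕ) : ∀ n : ℕ, (SF d n).Countable := by
  induction d with
  | zero =>
    intro n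
    exact Set.countable_iUnion fun d => ((ST_countable n d).image _).union
      (((ST_countable n d).image _).union ((ST_countable n d).image2 (ST_countable n d) _))
  | succ d ih =>
    intro n
    exact (ih n).union ((Set.countable_iUnion fun k => Set.countable_iUnion fun j =>
      (Set.countable_univ_pi fun _ => ih n).image _).union
      ((Set.countable_iUnion fun N => (ih (n + 1)).image _).union
        (Set.countable_iUnion fun N => (ih (n + 1)).image _)))

lemma SF_mono (n : ℕ) {d d' : ℕ} (h : d ≤ d') : SF d n ⊆ SF d' n := by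
  induction h with
  | refl => exact subset_rfl
  | step _ ih => exact ih.trans Set.subset_union_left

section

variable {G : Type} [Group G]

lemma term_apx {n : ℕ} (t : Tm n) (R : ℕ) : ∀ ε : ℝ, 0 < ε → ∃ d : ℕ, ∃ t' ∈ ST n d,
    ∀ a : Fin n → BH G, (∀ i, ‖a i‖ ≤ R) → ‖t.eval a - t'.eval a‖ ≤ ε := by
  induction t with
  | var i => exact fun ε hε => ⟨0, .var i, Or.inl ⟨i, rfl⟩, fun a ha => by simpa using hε.le⟩
  | zero => exact fun ε hε => ⟨0, .zero, Or.inr (Or.inl rfl), fun a ha => by simpa using hε.le⟩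
  | one => exact fun ε hε => ⟨0, .one, Or.inr (Or.inr rfl), fun a ha => by simpa using hε.le⟩
  | add s t ihs iht =>
    intro ε hε
    obtain ⟨d, s', hs, h⟩ := ihs (ε / 2) (by positivity)
    obtain ⟨e, t', ht, h'⟩ := iht (ε / 2) (by positivity)
    refine ⟨max d e + 1, .add s' t', Or.inr (Or.inl ⟨s', ST_mono n (le_max_left _ _) hs, t',
      ST_mono n (le_max_right _ _) ht, rfl⟩), fun a ha => ?_⟩
    simp only [Tm.eval]
    have e1 : s.eval a + t.eval a - (s'.eval a + t'.eval a) =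
      (s.eval a - s'.eval a) + (t.eval a - t'.eval a) := by abel
    rw [e1]
    have := norm_add_le (s.eval a - s'.eval a) (t.eval a - t'.eval a)
    linarith [h a ha, h' a ha]
  | mul s t ihs iht =>
    intro ε hε
    obtain ⟨S, hS, bs⟩ := term_bound (G := G) s R
    obtain ⟨T, hT, bt⟩ := term_bound (G := G) t R
    obtain ⟨e, t', ht, h'⟩ := iht (min 1 (ε / (2 * (S + 1)))) (by positivity)
    obtain ⟨d, s', hs, h⟩ := ihs (ε / (2 * (T + 1))) (by positivity)
    refine ⟨max d e + 1, .mul s' t', Or.inr (Or.inr (Or.inl ⟨s', ST_mono n (le_max_left _ _) hs, t',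
      ST_mono n (le_max_right _ _) ht, rfl⟩)), fun a ha => ?_⟩
    simp only [Tm.eval]
    have e1 : s.eval a * t.eval a - s'.eval a * t'.eval a =
      s.eval a * (t.eval a - t'.eval a) + (s.eval a - s'.eval a) * t'.eval a := by noncomm_ring
    rw [e1]
    have bt' : ‖t'.eval a‖ ≤ T + 1 := by
      have e2 : t'.eval a = t.eval a - (t.eval a - t'.eval a) := by abel
      rw [e2]
      have := norm_sub_le (t.eval a) (t.eval a - t'.eval a)
      have h3 := (h' a ha).trans (min_le_left _ _)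
      linarith [bt a ha]
    have h1 : ‖s.eval a * (t.eval a - t'.eval a)‖ ≤ ε / 2 := by
      refine (norm_mul_le _ _).trans ?_
      have h3 := (h' a ha).trans (min_le_right _ _)
      calc _ ≤ S * (ε / (2 * (S + 1))) := mul_le_mul (bs a ha) h3 (norm_nonneg _) hS
        _ ≤ (S + 1) * (ε / (2 * (S + 1))) := by gcongr; linarith
        _ = ε / 2 := by field_simp
    have h2 : ‖(s.eval a - s'.eval a) * t'.eval a‖ ≤ ε / 2 := by
      refine (norm_mul_le _ _).trans ?_
      calc _ ≤ (ε / (2 * (T + 1))) * (T + 1) :=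
            mul_le_mul (h a ha) bt' (norm_nonneg _) (by positivity)
        _ = ε / 2 := by field_simp
    have := norm_add_le (s.eval a * (t.eval a - t'.eval a)) ((s.eval a - s'.eval a) * t'.eval a)
    linarith
  | star t ih =>
    intro ε hε
    obtain ⟨d, t', ht, h⟩ := ih ε hε
    refine ⟨d + 1, .star t', Or.inr (Or.inr (Or.inr (Or.inl ⟨t', ht, rfl⟩))), fun a ha => ?_⟩
    simp only [Tm.eval]
    rw [← star_sub, norm_star]
    exact h a ha
  | smul c t ih =>
    intro ε hε
    obtain ⟨T, hT, bt⟩ := term_bound (G := G) t R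
    obtain ⟨d, t', ht, h⟩ := ih (ε / (2 * (‖c‖ + 1))) (by positivity)
    set T' := T + ε / (2 * (‖c‖ + 1)) with hT'
    have hT'0 : 0 < T' := by positivity
    have hd : Dense (Set.range (denseSeq ℂ)) := denseRange_denseSeq ℂ
    obtain ⟨_, hj, ⟨j, rfl⟩⟩ := Metric.dense_iff.1 hd c (ε / (2 * T')) (by positivity)
    rw [Metric.mem_ball, dist_eq_norm] at hj
    refine ⟨d + 1, .smul (denseSeq ℂ j) t', Or.inr (Or.inr (Or.inr (Or.inr
      (Set.mem_iUnion.2 ⟨j, t', ht, rfl⟩)))), fun a ha => ?_⟩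
    simp only [Tm.eval]
    have e1 : c • t.eval a - denseSeq ℂ j • t'.eval a =
        c • (t.eval a - t'.eval a) - (denseSeq ℂ j - c) • t'.eval a := by
      rw [smul_sub, sub_smul]; abel
    rw [e1]
    have bt' : ‖t'.eval a‖ ≤ T' := by
      have e2 : t'.eval a = t.eval a - (t.eval a - t'.eval a) := by abel
      rw [e2]
      have := norm_sub_le (t.eval a) (t.eval a - t'.eval a)
      linarith [bt a ha, h a ha]
    have h1 : ‖c • (t.eval a - t'.eval a)‖ ≤ ε / 2 := by
      rw [norm_smul]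
      calc _ ≤ (‖c‖ + 1) * (ε / (2 * (‖c‖ + 1))) := by
            gcongr
            · linarith
            · exact h a ha
        _ = ε / 2 := by field_simp
    have h2 : ‖(denseSeq ℂ j - c) • t'.eval a‖ ≤ ε / 2 := by
      rw [norm_smul]
      calc _ ≤ (ε / (2 * T')) * T' := by gcongr
        _ = ε / 2 := by field_simp
    have := norm_sub_le (c • (t.eval a - t'.eval a)) ((denseSeq ℂ j - c) • t'.eval a)
    linarith

/-- approximation of a continuous connective on a compact ball -/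
lemma conn_apx {k : ℕ} (u : C(Fin k → ℝ, ℝ)) (D ε : ℝ) (hε : 0 < ε) :
    ∃ j : ℕ, ∀ p ∈ Metric.closedBall (0 : Fin k → ℝ) D,
      |u p - denseSeq C(Fin k → ℝ, ℝ) j p| ≤ ε := by
  have hK : IsCompact (Metric.closedBall (0 : Fin k → ℝ) D) := isCompact_closedBall _ _
  have := isCompact_iff_compactSpace.1 hK
  have hc := ContinuousMap.continuous_restrict (Y := ℝ) (Metric.closedBall (0 : Fin k → ℝ) D)
  have ho : IsOpen {v : C(Fin k → ℝ, ℝ) | dist (v.restrict (Metric.closedBall (0 : Fin k → ℝ) D))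
      (u.restrict (Metric.closedBall (0 : Fin k → ℝ) D)) < ε} :=
    isOpen_lt (hc.dist continuous_const) continuous_const
  obtain ⟨_, hv, ⟨j, rfl⟩⟩ := (denseRange_denseSeq C(Fin k → ℝ, ℝ)).inter_open_nonempty _ ho
    ⟨u, by simpa using hε⟩
  refine ⟨j, fun p hp => ?_⟩
  have h1 := (ContinuousMap.dist_apply_le_dist (f := (denseSeq C(Fin k → ℝ, ℝ) j).restrict
    (Metric.closedBall (0 : Fin k → ℝ) D)) (g := u.restrict (Metric.closedBall (0 : Fin k → ℝ) D))
    ⟨p, hp⟩).trans (le_of_lt hv)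
  rw [Real.dist_eq, abs_sub_comm] at h1
  exact h1

lemma fml_apx {n : ℕ} (φ : Fml n) : ∀ (R : ℕ) (ε : ℝ), 0 < ε → ∃ d : ℕ, ∃ ψ ∈ SF d n,
    ∀ a ∈ Bal G n R, |φ.val (VN G) tr a - ψ.val (VN G) tr a| ≤ ε := by
  induction φ with
  | reTr t =>
    intro R ε hε
    obtain ⟨d, t', ht, h⟩ := term_apx (G := G) t R ε hε
    refine ⟨0, .reTr t', Set.mem_iUnion.2 ⟨d, Or.inl ⟨t', ht, rfl⟩⟩, fun a ha => ?_⟩
    exact (abs_re_tr _ _).trans ((norm_dl_le _).trans (h a fun i => (ha i).2))
  | imTr t =>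
    intro R ε hε
    obtain ⟨d, t', ht, h⟩ := term_apx (G := G) t R ε hε
    refine ⟨0, .imTr t', Set.mem_iUnion.2 ⟨d, Or.inr (Or.inl ⟨t', ht, rfl⟩)⟩, fun a ha => ?_⟩
    exact (abs_im_tr _ _).trans ((norm_dl_le _).trans (h a fun i => (ha i).2))
  | dist s t =>
    intro R ε hε
    obtain ⟨d, s', hs, h⟩ := term_apx (G := G) s R (ε / 2) (by positivity)
    obtain ⟨e, t', ht, h'⟩ := term_apx (G := G) t R (ε / 2) (by positivity)
    refine ⟨0, .dist s' t', Set.mem_iUnion.2 ⟨max d e, Or.inr (Or.inr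
      ⟨s', ST_mono _ (le_max_left _ _) hs, t', ST_mono _ (le_max_right _ _) ht, rfl⟩)⟩,
      fun a ha => ?_⟩
    simp only [Fml.val]
    rw [dist_eq, dist_eq]
    refine (abs_norm_sub_norm_le _ _).trans ?_
    have e1 : (s.eval a - t.eval a) (dl 1) - (s'.eval a - t'.eval a) (dl 1) =
        (s.eval a - s'.eval a) (dl 1) - (t.eval a - t'.eval a) (dl 1) := by
      simp only [sub_apply]; abel
    rw [e1]
    have h1 := (norm_dl_le (s.eval a - s'.eval a)).trans (h a fun i => (ha i).2)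
    have h2 := (norm_dl_le (t.eval a - t'.eval a)).trans (h' a fun i => (ha i).2)
    have := norm_sub_le ((s.eval a - s'.eval a) (dl 1)) ((t.eval a - t'.eval a) (dl 1))
    linarith
  | @conn n k u φ ih =>
    intro R ε hε
    choose C hC hCb using fun i => (nice_val (G := G) (φ i) R).1
    obtain ⟨D, hD, hDb⟩ := exists_common_bound C
    have hK : IsCompact (Metric.closedBall (0 : Fin k → ℝ) (D + 1)) := isCompact_closedBall _ _
    have huc := hK.uniformContinuousOn_of_continuous (f := u) u.continuous.continuousOn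
    rw [Metric.uniformContinuousOn_iff] at huc
    obtain ⟨δ, hδ, h⟩ := huc (ε / 2) (by positivity)
    choose d ψ hψ hψb using fun i => ih i R (min 1 (δ / 2)) (by positivity)
    obtain ⟨e, he⟩ := exists_common_nat d
    obtain ⟨j, hj⟩ := conn_apx u (D + 1) (ε / 2) (by positivity)
    refine ⟨e + 1, .conn k (denseSeq C(Fin k → ℝ, ℝ) j) ψ, Or.inr (Or.inl (Set.mem_iUnion.2 ⟨k,
      Set.mem_iUnion.2 ⟨j, ψ, fun i _ => SF_mono _ (he i) (hψ i), rfl⟩⟩)), fun a ha => ?_⟩
    have m1 : (fun i => (φ i).val (VN G) tr a) ∈ Metric.closedBall (0 : Fin k → ℝ) (D + 1) := by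
      rw [mem_closedBall_zero_iff, pi_norm_le_iff_of_nonneg (by positivity)]
      intro i
      have := (hCb i a ha).trans (hDb i)
      rw [Real.norm_eq_abs]
      linarith
    have m2 : (fun i => (ψ i).val (VN G) tr a) ∈ Metric.closedBall (0 : Fin k → ℝ) (D + 1) := by
      rw [mem_closedBall_zero_iff, pi_norm_le_iff_of_nonneg (by positivity)]
      intro i
      have h1 := (hCb i a ha).trans (hDb i)
      have h2 := (hψb i a ha).trans (min_le_left _ _)
      rw [Real.norm_eq_abs]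
      rw [abs_le] at *
      constructor <;> linarith
    have h1 := h _ m1 _ m2 (by
      rw [dist_pi_lt_iff hδ]
      intro i
      rw [Real.dist_eq]
      have := (hψb i a ha).trans (min_le_right _ _)
      linarith)
    rw [Real.dist_eq] at h1
    have h2 := hj _ m2
    simp only [Fml.val]
    have := abs_sub_le (u fun i => (φ i).val (VN G) tr a) (u fun i => (ψ i).val (VN G) tr a)
      (denseSeq C(Fin k → ℝ, ℝ) j fun i => (ψ i).val (VN G) tr a)
    linarith
  | @inf n N φ ih =>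
    have ne : {x : BH G | x ∈ VN G ∧ ‖x‖ ≤ N}.Nonempty := ⟨0, VN.zero_mem, by simp⟩
    intro R ε hε
    obtain ⟨d, ψ, hψ, h⟩ := ih (max R N) ε hε
    obtain ⟨C, hC, hCb⟩ := (nice_val (G := G) φ (max R N)).1
    obtain ⟨C', hC', hCb'⟩ := (nice_val (G := G) ψ (max R N)).1
    refine ⟨d + 1, .inf N ψ, Or.inr (Or.inr (Or.inl (Set.mem_iUnion.2 ⟨N, ψ, hψ, rfl⟩))),
      fun a ha => ?_⟩
    simp only [Fml.val]
    refine sInf_close (C := max C C') ne
      (fun x hx => (hCb _ (cons_mem_Bal hx.1 hx.2 ha)).trans (le_max_left _ _))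
      (fun x hx => (hCb' _ (cons_mem_Bal hx.1 hx.2 ha)).trans (le_max_right _ _))
      (fun x hx => h _ (cons_mem_Bal hx.1 hx.2 ha))
  | @sup n N φ ih =>
    have ne : {x : BH G | x ∈ VN G ∧ ‖x‖ ≤ N}.Nonempty := ⟨0, VN.zero_mem, by simp⟩
    intro R ε hε
    obtain ⟨d, ψ, hψ, h⟩ := ih (max R N) ε hε
    obtain ⟨C, hC, hCb⟩ := (nice_val (G := G) φ (max R N)).1
    obtain ⟨C', hC', hCb'⟩ := (nice_val (G := G) ψ (max R N)).1
    refine ⟨d + 1, .sup N ψ, Or.inr (Or.inr (Or.inr (Set.mem_iUnion.2 ⟨N, ψ, hψ, rfl⟩))),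
      fun a ha => ?_⟩
    simp only [Fml.val]
    refine sSup_close (C := max C C') ne
      (fun x hx => (hCb _ (cons_mem_Bal hx.1 hx.2 ha)).trans (le_max_left _ _))
      (fun x hx => (hCb' _ (cons_mem_Bal hx.1 hx.2 ha)).trans (le_max_right _ _))
      (fun x hx => h _ (cons_mem_Bal hx.1 hx.2 ha))

end

end Pool.Agent.Helper88.EC
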