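import Mathlib
import Pool.Agent.Helper88.EC.Defs

set_option autoImplicit false

open Function

namespace Pool.Agent.Helper88.EC

lemma lift_map {α : Type} {K L : Type} [Group K] [Group L] (f : K →* L) (s : α → K)
    (w : FreeGroup α) : FreeGroup.lift (f ∘ s) w = f (FreeGroup.lift s w) := by
  have : FreeGroup.lift (f ∘ s) = f.comp (FreeGroup.lift s) := by
    ext a; simp
  rw [this]; rfl

lemma solves_map {m n : ℕ} {E I : Finset (FreeGroup (Fin m ⊕ Fin n))} {K L : Type} [Group K]
    [Group L] (f : K →* L) (hf : Injective f) (c : Fin m → K) (x : Fin n → K) :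
    Solves E I (f ∘ c) (f ∘ x) ↔ Solves E I c x := by
  have e : Sum.elim (f ∘ c) (f ∘ x) = f ∘ Sum.elim c x := by
    ext a; cases a <;> rfl
  unfold Solves
  rw [e]
  simp only [lift_map, ne_eq, map_eq_one_iff f hf]

/-- A consistent system over `G`. -/
def Cons {m n : ℕ} (E I : Finset (FreeGroup (Fin m ⊕ Fin n))) {G : Type} [Group G]
    (c : Fin m → G) : Prop :=
  ∃ (K : Type) (_ : Group K) (j : G →* K) (x : Fin n → K),
      Injective j ∧ Solves E I (j ∘ c) x

theorem exists_step (G : Type) [Group G] : ∃ (L : Type) (_ : Group L) (f : G →* L), Injective f ∧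
    ∀ (m n : ℕ) (E I : Finset (FreeGroup (Fin m ⊕ Fin n))) (c : Fin m → G), Cons E I c →
      ∃ x : Fin n → L, Solves E I (f ∘ c) x := by
  classical
  let ι : Type := {s : Σ (m n : ℕ), Finset (FreeGroup (Fin m ⊕ Fin n)) ×
    Finset (FreeGroup (Fin m ⊕ Fin n)) × (Fin m → G) // Cons s.2.2.1 s.2.2.2.1 s.2.2.2.2}
  choose K gK j x hj hx using fun s : ι => s.2
  let _ : ∀ i, Group (K i) := gK
  refine ⟨Monoid.PushoutI j, inferInstance, Monoid.PushoutI.base j,
    Monoid.PushoutI.base_injective hj, ?_⟩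
  intro m n E I c hc
  let s : ι := ⟨⟨m, n, E, I, c⟩, hc⟩
  refine ⟨(Monoid.PushoutI.of s : K s →* Monoid.PushoutI j) ∘ x s, ?_⟩
  have h1 : (Monoid.PushoutI.base j) ∘ c =
      (Monoid.PushoutI.of s : K s →* Monoid.PushoutI j) ∘ (j s ∘ c) := by
    ext a
    exact (Monoid.PushoutI.of_apply_eq_base j s (c a)).symm
  rw [h1, solves_map _ (Monoid.PushoutI.of_injective hj s)]
  exact hx s

/-- bundled groups -/
structure BGrp : Type 1 where
  carrier : Type
  grp : Group carrier

attribute [instance] BGrp.grp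

noncomputable def nxt (G : BGrp) : BGrp :=
  ⟨(exists_step G.carrier).choose, (exists_step G.carrier).choose_spec.choose⟩

lemma nxt_spec (G : BGrp) : ∃ f : G.carrier →* (nxt G).carrier, Injective f ∧
    ∀ (m n : ℕ) (E I : Finset (FreeGroup (Fin m ⊕ Fin n))) (c : Fin m → G.carrier), Cons E I c →
      ∃ x : Fin n → (nxt G).carrier, Solves E I (f ∘ c) x :=
  (exists_step G.carrier).choose_spec.choose_spec

noncomputable def nxtMap (G : BGrp) : G.carrier →* (nxt G).carrier := (nxt_spec G).choose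

lemma nxtMap_inj (G : BGrp) : Injective (nxtMap G) := (nxt_spec G).choose_spec.1

lemma nxtMap_solves (G : BGrp) {m n : ℕ} {E I : Finset (FreeGroup (Fin m ⊕ Fin n))}
    {c : Fin m → G.carrier} (h : Cons E I c) :
    ∃ x : Fin n → (nxt G).carrier, Solves E I (nxtMap G ∘ c) x :=
  (nxt_spec G).choose_spec.2 m n E I c h

section Lim

variable {A : ℕ → Type} [∀ k, Group (A k)] (φ : ∀ k, A k →* A (k + 1))

/-- transition maps -/
noncomputable def trn (i j : ℕ) (h : i ≤ j) : A i →* A j :=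
  Nat.leRec (motive := fun j _ => A i →* A j) (MonoidHom.id _)
    (fun k _ f => (φ k).comp f) h

lemma trn_self (i : ℕ) : trn φ i i le_rfl = MonoidHom.id _ := by
  unfold trn; rw [Nat.leRec_self]

lemma trn_succ (i j : ℕ) (h : i ≤ j) :
    trn φ i (j + 1) (Nat.le_succ_of_le h) = (φ j).comp (trn φ i j h) := by
  unfold trn; rw [Nat.leRec_succ]

lemma trn_trans (i j k : ℕ) (h : i ≤ j) (h' : j ≤ k) :
    (trn φ j k h').comp (trn φ i j h) = trn φ i k (h.trans h') := by
  induction k, h' using Nat.le_induction with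
  | base => rw [trn_self]; rfl
  | succ k hk ih =>
    rw [trn_succ φ j k hk, trn_succ φ i k (h.trans hk), MonoidHom.comp_assoc, ih]

lemma trn_inj (hφ : ∀ k, Injective (φ k)) (i j : ℕ) (h : i ≤ j) : Injective (trn φ i j h) := by
  induction j, h using Nat.le_induction with
  | base => rw [trn_self]; exact fun _ _ h => h
  | succ k hk ih =>
    rw [trn_succ φ i k hk]
    exact (hφ _).comp ih

instance : DirectedSystem A (fun i j h => trn φ i j h) where
  map_self i x := by rw [trn_self]; rfl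
  map_map k j i hij hjk x := by rw [← trn_trans φ i j k hij hjk]; rfl

/-- the limit -/
abbrev Lim : Type :=
  DirectLimit A (fun i j h => trn φ i j h)

noncomputable def toLim (i : ℕ) : A i →* Lim φ where
  toFun x := ⟦⟨i, x⟩⟧
  map_one' := (DirectLimit.one_def (f := fun i j h => trn φ i j h) i).symm
  map_mul' x y := (DirectLimit.mul_def (f := fun i j h => trn φ i j h) i x y).symm

lemma toLim_inj (hφ : ∀ k, Injective (φ k)) (i : ℕ) : Injective (toLim φ i) :=
  DirectLimit.mk_injective (fun i j h => trn φ i j h) (fun i j h => trn_inj φ hφ i j h) i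

lemma toLim_tr (i j : ℕ) (h : i ≤ j) (x : A i) :
    toLim φ j (trn φ i j h x) = toLim φ i x :=
  DirectLimit.mk_apply (f := fun i j h => trn φ i j h) i j x h

lemma exists_toLim (z : Lim φ) : ∃ i x, toLim φ i x = z := by
  obtain ⟨i, x, h⟩ := DirectLimit.exists_eq_mk (fun i j h => trn φ i j h) z
  exact ⟨i, x, h.symm⟩

lemma exists_toLim_fin {m : ℕ} (c : Fin m → Lim φ) :
    ∃ i, ∃ c' : Fin m → A i, c = toLim φ i ∘ c' := by
  choose i x h using fun a => exists_toLim φ (c a)
  obtain ⟨N, hN⟩ := (Set.finite_range i).bddAbove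
  have hN' : ∀ a, i a ≤ N := fun a => hN ⟨a, rfl⟩
  refine ⟨N, fun a => trn φ (i a) N (hN' a) (x a), ?_⟩
  ext a
  simp only [comp_apply]
  rw [toLim_tr, h]

theorem lim_isEC (hφ : ∀ k, Injective (φ k))
    (hs : ∀ (k m n : ℕ) (E I : Finset (FreeGroup (Fin m ⊕ Fin n))) (c : Fin m → A k), Cons E I c →
      ∃ x : Fin n → A (k + 1), Solves E I (φ k ∘ c) x) : IsEC (Lim φ) := by
  rintro m n E I c ⟨K, gK, j, x, hj, hx⟩
  obtain ⟨i, c', rfl⟩ := exists_toLim_fin φ c
  have hc : Cons E I c' := ⟨K, gK, j.comp (toLim φ i), x, hj.comp (toLim_inj φ hφ i), hx⟩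
  obtain ⟨y, hy⟩ := hs i m n E I c' hc
  refine ⟨toLim φ (i + 1) ∘ y, ?_⟩
  have e : toLim φ i ∘ c' = toLim φ (i + 1) ∘ (φ i ∘ c') := by
    ext a
    simp only [comp_apply]
    rw [← toLim_tr φ i (i + 1) (Nat.le_succ_of_le le_rfl), trn_succ φ i i le_rfl, trn_self]
    rfl
  rw [e, solves_map _ (toLim_inj φ hφ (i + 1))]
  exact hy

end Lim

noncomputable def sq (G : BGrp) : ℕ → BGrp
  | 0 => G
  | k + 1 => nxt (sq G k)

/-- every group embeds in an existentially closed group -/
theorem exists_ec (G : Type) [Group G] : ∃ (L : Type) (_ : Group L) (f : G →* L),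
    Injective f ∧ IsEC L := by
  let X : BGrp := ⟨G, ‹_›⟩
  have key : ∃ (A : ℕ → Type) (_ : ∀ k, Group (A k)) (φ : ∀ k, A k →* A (k + 1))
      (f : G →* A 0), Injective f ∧ (∀ k, Injective (φ k)) ∧
      (∀ (k m n : ℕ) (E I : Finset (FreeGroup (Fin m ⊕ Fin n))) (c : Fin m → A k), Cons E I c →
      ∃ x : Fin n → A (k + 1), Solves E I (φ k ∘ c) x) :=
    ⟨fun k => (sq X k).carrier, fun k => (sq X k).grp, fun k => nxtMap (sq X k),
      MonoidHom.id G, fun _ _ h => h, fun k => nxtMap_inj (sq X k),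
      fun k m n E I c h => nxtMap_solves (sq X k) h⟩
  obtain ⟨A, gA, φ, f, hf, hφ, hs⟩ := key
  exact ⟨Lim φ, inferInstance, (toLim φ 0).comp f, (toLim_inj φ hφ 0).comp hf,
    lim_isEC φ hφ hs⟩

def pb (X Y : BGrp) : Bool → BGrp
  | true => X
  | false => Y

def pf {H : Type} [Group H] {X Y : BGrp} (f : H →* X.carrier) (g : H →* Y.carrier) :
    ∀ b, H →* (pb X Y b).carrier
  | true => f
  | false => g

/-- amalgamation: a system over a subgroup of an existentially closed group that is consistent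
with the subgroup is solved in the big group -/
theorem solve_sub {Ω : Type} [Group Ω] (hΩ : IsEC Ω) (H : Subgroup Ω) {m n : ℕ}
    {E I : Finset (FreeGroup (Fin m ⊕ Fin n))} (c : Fin m → H) (hc : Cons E I c) :
    ∃ x : Fin n → Ω, Solves E I (H.subtype ∘ c) x := by
  obtain ⟨K, gK, j, x, hj, hx⟩ := hc
  let X : BGrp := ⟨Ω, ‹_›⟩
  let Y : BGrp := ⟨K, gK⟩
  let φ : ∀ b, H →* (pb X Y b).carrier := pf (X := X) (Y := Y) H.subtype j
  have hφ : ∀ b, Injective (φ b) := by
    intro b; cases b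
    · exact hj
    · exact H.subtype_injective
  let iΩ : Ω →* Monoid.PushoutI φ := Monoid.PushoutI.of (φ := φ) true
  let iK : K →* Monoid.PushoutI φ := Monoid.PushoutI.of (φ := φ) false
  have hiΩ : Injective iΩ := Monoid.PushoutI.of_injective hφ true
  have hiK : Injective iK := Monoid.PushoutI.of_injective hφ false
  apply hΩ m n E I
  refine ⟨Monoid.PushoutI φ, inferInstance, iΩ, iK ∘ x, hiΩ, ?_⟩
  have e : iΩ ∘ (H.subtype ∘ c) = iK ∘ (j ∘ c) := by
    ext a
    have h1 := Monoid.PushoutI.of_apply_eq_base φ true (c a)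
    have h2 := Monoid.PushoutI.of_apply_eq_base φ false (c a)
    exact h1.trans h2.symm
  rw [e, solves_map _ hiK]
  exact hx

/-- a subgroup in which all systems solvable in `Ω` are solved is existentially closed -/
theorem isEC_of_closed {Ω : Type} [Group Ω] (hΩ : IsEC Ω) (H : Subgroup Ω)
    (hH : ∀ (m n : ℕ) (E I : Finset (FreeGroup (Fin m ⊕ Fin n))) (c : Fin m → Ω),
      (∀ i, c i ∈ H) → (∃ x : Fin n → Ω, Solves E I c x) →
        ∃ x : Fin n → Ω, (∀ i, x i ∈ H) ∧ Solves E I c x) : IsEC H := by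
  intro m n E I c hc
  obtain ⟨x, hx⟩ := solve_sub hΩ H c hc
  obtain ⟨y, hy, hy'⟩ := hH m n E I (H.subtype ∘ c) (fun i => (c i).2) ⟨x, hx⟩
  refine ⟨fun i => ⟨y i, hy i⟩, ?_⟩
  rw [← solves_map H.subtype H.subtype_injective]
  exact hy'

end Pool.Agent.Helper88.EC
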