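import Mathlib

set_option autoImplicit false

open Function Equiv

namespace Pool.Agent.Helper88.EC

/-- the set of `m ≥ 1` such that `a` commutes with `b ^ m * a * b ^ (-m)` -/
def rset {G : Type} [Group G] (a b : G) : Set ℕ :=
  {m | 1 ≤ m ∧ a * (b ^ m * a * (b ^ m)⁻¹) = (b ^ m * a * (b ^ m)⁻¹) * a}

lemma rset_map {G H : Type} [Group G] [Group H] (f : G →* H) (hf : Injective f) (a b : G) :
    rset (f a) (f b) = rset a b := by
  ext m
  unfold rset
  simp only [Set.mem_ofPred_eq]
  refine and_congr_right fun _ => ?_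
  rw [← map_pow, ← map_inv, ← map_mul, ← map_mul, ← map_mul, ← map_mul]
  exact hf.eq_iff

/-- the ambient group -/
abbrev Amb : Type := ℕ → Perm ℤ

noncomputable def xS (S : Set ℕ) : Amb := by
  classical
  exact fun n => if n ∈ S then 1 else swap 0 (n : ℤ)

def yS : Amb := fun _ => Equiv.addRight (1 : ℤ)

lemma addRight_pow (m : ℕ) : (Equiv.addRight (1 : ℤ)) ^ m = Equiv.addRight (m : ℤ) := by
  induction m with
  | zero => ext x; simp
  | succ k ih =>
    rw [pow_succ, ih]
    ext x
    simp only [Perm.coe_mul, comp_apply, coe_addRight, Nat.cast_add, Nat.cast_one]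
    ring

lemma rset_amb (S : Set ℕ) : rset (xS S) yS = {m | 1 ≤ m ∧ m ∈ S} := by
  classical
  ext m
  unfold rset
  simp only [Set.mem_ofPred_eq]
  refine and_congr_right fun hm => ?_
  constructor
  · intro h
    by_contra hS
    have h1 := congrFun h m
    simp only [Pi.mul_apply, Pi.pow_apply, Pi.inv_apply, xS, yS, if_neg hS, addRight_pow] at h1
    rw [← swap_apply_apply] at h1
    have h2 := congrArg (fun e : Perm ℤ => e 0) h1
    simp only [Perm.coe_mul, comp_apply, coe_addRight, zero_add, swap_apply_left] at h2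
    have e1 : (swap (m : ℤ) (m + m)) 0 = 0 := by
      apply swap_apply_of_ne_of_ne <;> omega
    rw [e1, swap_apply_left] at h2
    omega
  · intro hS
    ext n : 1
    simp only [Pi.mul_apply, Pi.pow_apply, Pi.inv_apply, xS, yS, addRight_pow]
    by_cases hn : n ∈ S
    · simp [hn]
    · simp only [if_neg hn]
      have hmn : m ≠ n := by rintro rfl; exact hn hS
      rw [← swap_apply_apply]
      simp only [coe_addRight, zero_add]
      by_cases hn0 : n = 0
      · subst hn0; simp
      have hd : Perm.Disjoint (swap (0 : ℤ) n) (swap (m : ℤ) (n + m)) := by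
        intro z
        by_cases h1 : z = 0 ∨ z = n
        · right
          apply swap_apply_of_ne_of_ne <;> omega
        · left
          apply swap_apply_of_ne_of_ne <;> omega
      exact hd.commute

/-- injective coding of sets of naturals -/
def RT (T : Set ℕ) : Set ℕ := {m | 1 ≤ m ∧ m - 1 ∈ T}

lemma rset_amb' (T : Set ℕ) : rset (xS (RT T)) yS = RT T := by
  rw [rset_amb]
  ext m
  simp only [RT, Set.mem_ofPred_eq]
  tauto

/-- a countable group does not realise all sets `RT T` -/
lemma exists_not_realised (G : Type) [Group G] [Countable G] :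
    ∃ T : Set ℕ, ∀ a b : G, rset a b ≠ RT T := by
  obtain ⟨e, he⟩ := exists_surjective_nat (G × G)
  refine ⟨{i | i + 1 ∉ rset (e i).1 (e i).2}, ?_⟩
  intro a b h
  obtain ⟨i, hi⟩ := he (a, b)
  have h1 : i + 1 ∈ rset a b ↔ i + 1 ∈ RT {i | i + 1 ∉ rset (e i).1 (e i).2} := by rw [h]
  simp only [RT, Set.mem_ofPred_eq, hi, Nat.add_sub_cancel] at h1
  have : 1 ≤ i + 1 := Nat.le_add_left _ _
  tauto

/-- isomorphic groups realise the same sets -/
lemma realised_iso {G H : Type} [Group G] [Group H] (e : G ≃* H) (a b : H) :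
    ∃ a' b' : G, rset a' b' = rset a b := by
  refine ⟨e.symm a, e.symm b, ?_⟩
  exact rset_map e.symm.toMonoidHom e.symm.injective a b

end Pool.Agent.Helper88.EC
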