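import Mathlib
import Pool.Agent.Helper88.EC.Cnt
import Pool.Agent.Helper88.EC.Groups
import Pool.Agent.Helper88.EC.NonIso

set_option autoImplicit false

open Function TopologicalSpace
open scoped ENNReal InnerProductSpace

namespace Pool.Agent.Helper88.EC

section

variable {G : Type} [Group G]

lemma countable_closure (S : Set G) (hS : S.Countable) :
    (Subgroup.closure S : Set G).Countable := by
  have := hS.to_subtype
  have h : (Subgroup.closure S : Set G) ⊆ Set.range (FreeGroup.lift (Subtype.val : S → G)) := by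
    intro x hx
    have h1 : Subgroup.closure S ≤ (FreeGroup.lift (Subtype.val : S → G)).range := by
      rw [Subgroup.closure_le]
      intro s hs
      exact ⟨FreeGroup.of ⟨s, hs⟩, by simp⟩
    exact h1 hx
  exact (Set.countable_range _).mono h

lemma countable_supp (ξ : Hs G) : {g | ξ g ≠ 0}.Countable := by
  have := (summ ξ).countable_support
  refine this.mono ?_
  intro g hg
  simp only [mem_support]
  have : ξ g ≠ 0 := hg
  positivity

lemma supp_separable (H : Subgroup G) (hH : (H : Set G).Countable) :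
    IsSeparable {ξ : Hs G | ∀ g, g ∉ H → ξ g = 0} := by
  have h1 : IsSeparable (Submodule.span ℂ (dl '' (H : Set G)) : Set (Hs G)) :=
    ((hH.image _).isSeparable).span
  refine h1.closure.mono ?_
  intro ξ hξ
  refine mem_closure_of_tendsto (hasSum_dl ξ) (Filter.Eventually.of_forall fun s => ?_)
  refine Submodule.sum_mem _ fun g _ => ?_
  by_cases hg : g ∈ H
  · exact Submodule.smul_mem _ _ (Submodule.subset_span ⟨g, hg, rfl⟩)
  · have : ξ g = 0 := hξ g hg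
    rw [this, zero_smul]; exact Submodule.zero_mem _

/-- countable 2-norm dense subset of the operator norm balls of `VS H` -/
lemma exists_dense (H : Subgroup G) (hH : (H : Set G).Countable) :
    ∃ Q : Set (BH G), Q.Countable ∧ Q ⊆ VS H ∧ ∀ a ∈ VS H, ∀ R : ℕ, ‖a‖ ≤ R → ∀ ε : ℝ, 0 < ε →
      ∃ q ∈ Q, ‖q‖ ≤ R ∧ ‖(a - q) (dl 1)‖ < ε := by
  have key : ∀ R : ℕ, ∃ Q : Set (BH G), Q.Countable ∧ Q ⊆ {y | y ∈ VS H ∧ ‖y‖ ≤ R} ∧
      ∀ a ∈ VS H, ‖a‖ ≤ R → ∀ ε : ℝ, 0 < ε → ∃ q ∈ Q, ‖(a - q) (dl 1)‖ < ε := by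
    intro R
    let S : Set (Hs G) := (fun y : BH G => y (dl 1)) '' {y | y ∈ VS H ∧ ‖y‖ ≤ R}
    have hS : IsSeparable S := (supp_separable H hH).mono (by
      rintro _ ⟨y, ⟨hy, -⟩, rfl⟩
      exact hy.2)
    obtain ⟨t, htS, htc, ht⟩ := hS.exists_countable_dense_subset
    choose! f hf using fun ξ (hξ : ξ ∈ S) => hξ
    refine ⟨f '' t, htc.image _, ?_, ?_⟩
    · rintro _ ⟨ξ, hξ, rfl⟩
      exact (hf ξ (htS hξ)).1
    · intro a ha haR ε hε
      have h1 : a (dl 1) ∈ closure t := ht ⟨a, ⟨ha, haR⟩, rfl⟩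
      obtain ⟨ξ, hξ, hd⟩ := Metric.mem_closure_iff.1 h1 ε hε
      refine ⟨f ξ, ⟨ξ, hξ, rfl⟩, ?_⟩
      have h2 : f ξ (dl 1) = ξ := (hf ξ (htS hξ)).2
      rw [sub_apply, h2, ← dist_eq_norm]
      exact hd
  choose Q hQc hQ hQd using key
  refine ⟨⋃ R, Q R, Set.countable_iUnion hQc, Set.iUnion_subset fun R => (hQ R).trans
    (fun y hy => hy.1), ?_⟩
  intro a ha R haR ε hε
  obtain ⟨q, hq, hqd⟩ := hQd R a ha haR ε hε
  exact ⟨q, Set.mem_iUnion.2 ⟨R, hq⟩, (hQ R hq).2, hqd⟩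

/-- value in the big structure -/
noncomputable abbrev bv (G : Type) [Group G] {n : ℕ} (φ : Fml n) (a : Fin n → BH G) : ℝ :=
  φ.val (VN G) tr a

/-- one closing step -/
structure Step (H H' : Subgroup G) : Prop where
  le : H ≤ H'
  cnt : (H' : Set G).Countable
  grp : ∀ (m n : ℕ) (E I : Finset (FreeGroup (Fin m ⊕ Fin n))) (c : Fin m → G),
    (∀ i, c i ∈ H) → (∃ x : Fin n → G, Solves E I c x) → ∃ x : Fin n → G, (∀ i, x i ∈ H') ∧
      Solves E I c x
  alg : ∃ Q : Set (BH G), Q ⊆ VS H ∧ (∀ a ∈ VS H, ∀ R : ℕ, ‖a‖ ≤ R → ∀ ε : ℝ, 0 < ε →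
      ∃ q ∈ Q, ‖q‖ ≤ R ∧ ‖(a - q) (dl 1)‖ < ε) ∧
    ∀ (n d : ℕ), ∀ φ ∈ SF d (n + 1), ∀ a : Fin n → BH G, (∀ i, a i ∈ Q) → ∀ (N : ℕ) (p q : ℚ),
      (∃ x ∈ VN G, ‖x‖ ≤ N ∧ p < bv G φ (Fin.cons x a) ∧ bv G φ (Fin.cons x a) < q) →
      (∃ x ∈ VS H', ‖x‖ ≤ N ∧ p < bv G φ (Fin.cons x a) ∧ bv G φ (Fin.cons x a) < q)

lemma exists_step' (H : Subgroup G) (hH : (H : Set G).Countable) : ∃ H', Step H H' := by
  classical
  obtain ⟨Q, hQc, hQ, hQd⟩ := exists_dense H hH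
  have hQ' : Countable Q := hQc.to_subtype
  have hH' : Countable H := hH.to_subtype
  let I₁ : Type := Σ (m n : ℕ), Finset (FreeGroup (Fin m ⊕ Fin n)) ×
    Finset (FreeGroup (Fin m ⊕ Fin n)) × (Fin m → H)
  have hI₁ : Countable I₁ := inferInstance
  have hSF : ∀ n d, Countable (SF d (n + 1)) := fun n d => (SF_countable d (n + 1)).to_subtype
  let I₂ : Type := Σ (n d : ℕ), (SF d (n + 1)) × (Fin n → Q) × ℕ × ℚ × ℚ
  have hI₂ : Countable I₂ := by
    have : ∀ n d, Countable ((SF d (n + 1)) × (Fin n → Q) × ℕ × ℚ × ℚ) := fun n d => by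
      have := hSF n d
      infer_instance
    infer_instance
  have k₁ : ∀ i : I₁, ∃ x : Fin i.2.1 → G,
      (∃ x : Fin i.2.1 → G, Solves i.2.2.1 i.2.2.2.1 (fun k => (i.2.2.2.2 k : G)) x) →
      Solves i.2.2.1 i.2.2.2.1 (fun k => (i.2.2.2.2 k : G)) x := by
    intro i
    by_cases h : ∃ x : Fin i.2.1 → G, Solves i.2.2.1 i.2.2.2.1 (fun k => (i.2.2.2.2 k : G)) x
    · obtain ⟨x, hx⟩ := h
      exact ⟨x, fun _ => hx⟩
    · exact ⟨1, fun h' => absurd h' h⟩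
  choose x hx using k₁
  have k₂ : ∀ i : I₂, ∃ y : BH G, (∃ x ∈ VN G, ‖x‖ ≤ (i.2.2.2.2.1 : ℝ) ∧
      i.2.2.2.2.2.1 < bv G i.2.2.1.1 (Fin.cons x fun k => (i.2.2.2.1 k : BH G)) ∧
      bv G i.2.2.1.1 (Fin.cons x fun k => (i.2.2.2.1 k : BH G)) < i.2.2.2.2.2.2) →
      y ∈ VN G ∧ ‖y‖ ≤ (i.2.2.2.2.1 : ℝ) ∧
      i.2.2.2.2.2.1 < bv G i.2.2.1.1 (Fin.cons y fun k => (i.2.2.2.1 k : BH G)) ∧
      bv G i.2.2.1.1 (Fin.cons y fun k => (i.2.2.2.1 k : BH G)) < i.2.2.2.2.2.2 := by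
    intro i
    by_cases h : (∃ x ∈ VN G, ‖x‖ ≤ (i.2.2.2.2.1 : ℝ) ∧
      i.2.2.2.2.2.1 < bv G i.2.2.1.1 (Fin.cons x fun k => (i.2.2.2.1 k : BH G)) ∧
      bv G i.2.2.1.1 (Fin.cons x fun k => (i.2.2.2.1 k : BH G)) < i.2.2.2.2.2.2)
    · obtain ⟨y, hy⟩ := h
      exact ⟨y, fun _ => hy⟩
    · exact ⟨0, fun h' => absurd h' h⟩
  choose y hy using k₂
  let S : Set G := (H : Set G) ∪ ((⋃ i, Set.range (x i)) ∪ ⋃ i, {g | y i (dl 1) g ≠ 0})
  have hS : S.Countable := hH.union ((Set.countable_iUnion fun i => Set.countable_range _).union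
    (Set.countable_iUnion fun i => countable_supp _))
  refine ⟨Subgroup.closure S, ?_, countable_closure S hS, ?_, Q, hQ, hQd, ?_⟩
  · intro g hg
    exact Subgroup.subset_closure (Or.inl hg)
  · intro m n E I c hc hsol
    let i : I₁ := ⟨m, n, E, I, fun k => ⟨c k, hc k⟩⟩
    refine ⟨x i, fun k => Subgroup.subset_closure (Or.inr (Or.inl (Set.mem_iUnion.2
      ⟨i, ⟨k, rfl⟩⟩))), hx i hsol⟩
  · intro n d φ hφ a ha N p q hsol
    let i : I₂ := ⟨n, d, ⟨φ, hφ⟩, fun k => ⟨a k, ha k⟩, N, p, q⟩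
    obtain ⟨h1, h2⟩ := hy i hsol
    refine ⟨y i, ⟨h1, ?_⟩, h2⟩
    intro g hg
    by_contra hne
    exact hg (Subgroup.subset_closure (Or.inr (Or.inr (Set.mem_iUnion.2 ⟨i, hne⟩))))

/-- the 2-norm distance to the conditional expectation tends to zero -/
lemma ce_tendsto (K : ℕ → Subgroup G) (hK : Monotone K) {a : BH G}
    (ha : a ∈ VS (⨆ k, K k)) {ε : ℝ} (hε : 0 < ε) :
    ∃ k₀, ∀ k ≥ k₀, ‖(a - ce (K k) a) (dl 1)‖ < ε := by
  classical
  set ξ := a (dl 1) with hξ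
  obtain ⟨s, hs⟩ := (summable_iff_vanishing_norm.1 (summ ξ)) (ε ^ 2 / 2) (by positivity)
  have hdir : Directed (· ≤ ·) K := hK.directed_le
  -- choose `k₀` with all of `s ∩ H` in `K k₀`
  have h1 : ∀ g ∈ s, ∃ k, g ∈ (⨆ k, K k) → g ∈ K k := by
    intro g _
    by_cases h : g ∈ (⨆ k, K k)
    · obtain ⟨k, hk⟩ := (Subgroup.mem_iSup_of_directed hdir).1 h
      exact ⟨k, fun _ => hk⟩
    · exact ⟨0, fun h' => absurd h' h⟩
  choose! f hf using h1
  refine ⟨s.sup f, fun k hk => ?_⟩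
  have h2 : ∀ g ∈ s, g ∈ (⨆ k, K k) → g ∈ K k := fun g hg h =>
    hK ((Finset.le_sup hg).trans hk) (hf g hg h)
  have h3 : ∀ g, ((a - ce (K k) a) (dl 1)) g = if g ∈ K k then 0 else ξ g := by
    intro g
    rw [sub_apply, hs_sub]
    split_ifs with h
    · rw [ce_dl ha.1 h, sub_self]
    · rw [ce_dl_of_not_mem ha.1 h, sub_zero]
  have h4 : ∀ g ∈ s, ((a - ce (K k) a) (dl 1)) g = 0 := by
    intro g hg
    rw [h3]
    split_ifs with h
    · rfl
    · exact ha.2 g (fun h' => h (h2 g hg h'))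
  have h5 : ‖(a - ce (K k) a) (dl 1)‖ ^ 2 ≤ ε ^ 2 / 2 := by
    rw [nsq]
    refine Real.tsum_le_of_sum_le (fun _ => by positivity) fun t => ?_
    have h6 := hs (t \ s) (Finset.sdiff_disjoint)
    rw [Real.norm_eq_abs] at h6
    have h7 := (le_abs_self _).trans h6.le
    refine le_trans ?_ h7
    rw [← Finset.sum_subset (Finset.sdiff_subset (s := t) (t := s))]
    · refine Finset.sum_le_sum fun g _ => ?_
      rw [h3]
      split_ifs
      · rw [norm_zero]; simp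
      · exact le_rfl
    · intro g hg hg'
      have : g ∈ s := by
        by_contra h
        exact hg' (Finset.mem_sdiff.2 ⟨hg, h⟩)
      rw [h4 g this]; simp
  have h6 : ‖(a - ce (K k) a) (dl 1)‖ ^ 2 < ε ^ 2 := by
    have : 0 < ε ^ 2 := by positivity
    linarith
  exact lt_of_pow_lt_pow_left₀ 2 hε.le h6

/-- the union of a chain of steps -/
structure Good (H : Subgroup G) : Prop where
  cnt : (H : Set G).Countable
  grp : ∀ (m n : ℕ) (E I : Finset (FreeGroup (Fin m ⊕ Fin n))) (c : Fin m → G),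
    (∀ i, c i ∈ H) → (∃ x : Fin n → G, Solves E I c x) → ∃ x : Fin n → G, (∀ i, x i ∈ H) ∧
      Solves E I c x
  alg : ∀ (n : ℕ) (φ : Fml (n + 1)) (a : Fin n → BH G), (∀ i, a i ∈ VS H) → ∀ (N : ℕ),
    ∀ x ∈ VN G, ‖x‖ ≤ N → ∀ ε : ℝ, 0 < ε → ∃ c ∈ VS H, ‖c‖ ≤ N ∧
      |bv G φ (Fin.cons c a) - bv G φ (Fin.cons x a)| ≤ ε

lemma VS_mono {H H' : Subgroup G} (h : H ≤ H') : VS H ⊆ VS H' := fun _ hy =>
  ⟨hy.1, fun g hg => hy.2 g fun h' => hg (h h')⟩

theorem good_of_steps (K : ℕ → Subgroup G) (h0 : (K 0 : Set G).Countable)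
    (hK : ∀ k, Step (K k) (K (k + 1))) : Good (⨆ k, K k) := by
  have hmono : Monotone K := monotone_nat_of_le_succ fun k => (hK k).le
  have hdir : Directed (· ≤ ·) K := hmono.directed_le
  have hcnt : ∀ k, (K k : Set G).Countable := by
    intro k
    cases k with
    | zero => exact h0
    | succ k => exact (hK k).cnt
  refine ⟨?_, ?_, ?_⟩
  · have : ((⨆ k, K k : Subgroup G) : Set G) ⊆ ⋃ k, (K k : Set G) := by
      intro g hg
      obtain ⟨k, hk⟩ := (Subgroup.mem_iSup_of_directed hdir).1 hg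
      exact Set.mem_iUnion.2 ⟨k, hk⟩
    exact (Set.countable_iUnion hcnt).mono this
  · intro m n E I c hc hsol
    choose k hk using fun i => (Subgroup.mem_iSup_of_directed hdir).1 (hc i)
    obtain ⟨M, hM⟩ := exists_common_nat k
    obtain ⟨x, hx, hx'⟩ := (hK M).grp m n E I c (fun i => hmono (hM i) (hk i)) hsol
    exact ⟨x, fun i => (le_iSup K (M + 1)) (hx i), hx'⟩
  · intro n φ a ha N x hx hxN ε hε
    -- a common natural bound
    obtain ⟨C, hC, hCb⟩ := exists_common_bound fun i => ‖a i‖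
    obtain ⟨R₀, hR₀⟩ := exists_nat_ge C
    set R : ℕ := max R₀ N with hR
    have hR₀R : R₀ ≤ R := le_max_left _ _
    have hNR : N ≤ R := le_max_right _ _
    have haR : ∀ i, ‖a i‖ ≤ R₀ := fun i => (hCb i).trans hR₀
    obtain ⟨δ, hδ, huc⟩ := (nice_val (G := G) φ R).2 (ε / 5) (by positivity)
    obtain ⟨d, ψ, hψ, hψb⟩ := fml_apx (G := G) φ R (ε / 5) (by positivity)
    choose k₀ hk₀ using fun i => ce_tendsto K hmono (ha i) (half_pos hδ)
    obtain ⟨k, hk⟩ := exists_common_nat k₀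
    obtain ⟨Q, hQ, hQd, hQs⟩ := (hK k).alg
    -- approximate the parameters
    have hb : ∀ i, ∃ q ∈ Q, ‖q‖ ≤ R₀ ∧ ‖(a i - q) (dl 1)‖ < δ := by
      intro i
      have h1 := hk₀ i k (hk i)
      obtain ⟨q, hq, hqR, hqd⟩ := hQd (ce (K k) (a i)) (ce_mem (ha i).1) R₀
        ((norm_ce_le (ha i).1).trans (haR i)) (δ / 2) (by positivity)
      refine ⟨q, hq, hqR, ?_⟩
      have e : (a i - q) (dl 1) = (a i - ce (K k) (a i)) (dl 1) + (ce (K k) (a i) - q) (dl 1) := by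
        simp only [sub_apply]; abel
      rw [e]
      have := norm_add_le ((a i - ce (K k) (a i)) (dl 1)) ((ce (K k) (a i) - q) (dl 1))
      linarith
    choose b hbQ hbR hbd using hb
    have hbV : ∀ i, b i ∈ VN G := fun i => (hQ (hbQ i)).1
    have hmaxR : max R₀ N = R := rfl
    have hballa : ∀ y ∈ VN G, ‖y‖ ≤ N → (Fin.cons y a : Fin (n + 1) → BH G) ∈ Bal G (n + 1) R :=
      fun y hy hyN => cons_mem_Bal hy hyN fun i => ⟨(ha i).1, haR i⟩
    have hballb : ∀ y ∈ VN G, ‖y‖ ≤ N → (Fin.cons y b : Fin (n + 1) → BH G) ∈ Bal G (n + 1) R :=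
      fun y hy hyN => cons_mem_Bal hy hyN fun i => ⟨hbV i, hbR i⟩
    have hab : ∀ y ∈ VN G, ‖y‖ ≤ N →
        |bv G φ (Fin.cons y a) - bv G φ (Fin.cons y b)| ≤ ε / 5 := by
      intro y hy hyN
      refine huc _ (hballa y hy hyN) _ (hballb y hy hyN) ?_
      intro i
      refine Fin.cases ?_ ?_ i
      · simpa using hδ
      · intro j; simpa using hbd j
    obtain ⟨p, hp1, hp2⟩ := exists_rat_btwn
      (show bv G ψ (Fin.cons x b) - ε / 10 < bv G ψ (Fin.cons x b) by linarith)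
    obtain ⟨q, hq1, hq2⟩ := exists_rat_btwn
      (show bv G ψ (Fin.cons x b) < bv G ψ (Fin.cons x b) + ε / 10 by linarith)
    obtain ⟨c, hc, hcN, hc1, hc2⟩ := hQs n d ψ hψ b hbQ N p q ⟨x, hx, hxN, hp2, hq1⟩
    refine ⟨c, VS_mono (le_iSup K (k + 1)) hc, hcN, ?_⟩
    have h1 := hab c hc.1 hcN
    have h2 := hab x hx hxN
    have h3 := hψb _ (hballb c hc.1 hcN)
    have h4 := hψb _ (hballb x hx hxN)
    rw [abs_le] at *
    constructor <;> linarith

theorem exists_good (S : Set G) (hS : S.Countable) : ∃ H : Subgroup G, S ⊆ H ∧ Good H := by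
  choose! nx hnx using fun (H : Subgroup G) (hH : (H : Set G).Countable) => exists_step' H hH
  let K : ℕ → Subgroup G := fun k =>
    Nat.rec (motive := fun _ => Subgroup G) (Subgroup.closure S) (fun _ H => nx H) k
  have h0 : (K 0 : Set G).Countable := countable_closure S hS
  have hcnt : ∀ k, (K k : Set G).Countable := by
    intro k
    induction k with
    | zero => exact h0
    | succ k ih => exact (hnx (K k) ih).cnt
  refine ⟨⨆ k, K k, ?_, good_of_steps K h0 fun k => hnx (K k) (hcnt k)⟩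
  intro s hs
  exact (le_iSup K 0) (Subgroup.subset_closure hs)

lemma sInf_eq_of_dense {s t : Set ℝ} (hst : s ⊆ t) (hs : s.Nonempty) (ht : BddBelow t)
    (h : ∀ y ∈ t, ∀ ε : ℝ, 0 < ε → ∃ x ∈ s, |x - y| ≤ ε) : sInf s = sInf t := by
  apply le_antisymm
  · apply le_of_forall_pos_le_add
    intro ε hε
    rw [← sub_le_iff_le_add]
    apply le_csInf (hs.mono hst)
    intro y hy
    obtain ⟨x, hx, hxy⟩ := h y hy ε hε
    have := csInf_le (ht.mono hst) hx
    rw [abs_le] at hxy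
    linarith
  · exact csInf_le_csInf ht hs hst

lemma sSup_eq_of_dense {s t : Set ℝ} (hst : s ⊆ t) (hs : s.Nonempty) (ht : BddAbove t)
    (h : ∀ y ∈ t, ∀ ε : ℝ, 0 < ε → ∃ x ∈ s, |x - y| ≤ ε) : sSup s = sSup t := by
  apply le_antisymm
  · exact csSup_le_csSup ht hs hst
  · apply le_of_forall_pos_le_add
    intro ε hε
    apply csSup_le (hs.mono hst)
    intro y hy
    obtain ⟨x, hx, hxy⟩ := h y hy ε hε
    have := le_csSup (ht.mono hst) hx
    rw [abs_le] at hxy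
    linarith

theorem tarski_vaught {H : Subgroup G} (hH : Good H) {n : ℕ} (φ : Fml n) :
    ∀ a : Fin n → BH G, (∀ i, a i ∈ VS H) → φ.val (VS H) tr a = φ.val (VN G) tr a := by
  induction φ with
  | reTr t => intro a ha; rfl
  | imTr t => intro a ha; rfl
  | dist s t => intro a ha; rfl
  | conn k u φ ih =>
    intro a ha
    simp only [Fml.val]
    congr 1
    ext i
    exact ih i a ha
  | @inf n N φ ih =>
    intro a ha
    simp only [Fml.val]
    obtain ⟨C, hC, hCb⟩ := exists_common_bound fun i => ‖a i‖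
    obtain ⟨R, hR⟩ := exists_nat_ge C
    obtain ⟨D, hD, hDb⟩ := (nice_val (G := G) φ (max R N)).1
    have e : (fun x => φ.val (VS H) tr (Fin.cons x a)) '' {x | x ∈ VS H ∧ ‖x‖ ≤ N} =
        (fun x => φ.val (VN G) tr (Fin.cons x a)) '' {x | x ∈ VS H ∧ ‖x‖ ≤ N} := by
      apply Set.image_congr
      intro x hx
      exact ih _ (Fin.cases hx.1 ha)
    rw [e]
    apply sInf_eq_of_dense
    · exact Set.image_mono fun x hx => ⟨hx.1.1, hx.2⟩
    · exact ⟨_, ⟨0, ⟨VS.zero, by simp⟩, rfl⟩⟩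
    · refine ⟨-D, ?_⟩
      rintro _ ⟨x, hx, rfl⟩
      exact (abs_le.1 (hDb _ (cons_mem_Bal hx.1 hx.2 fun i => ⟨(ha i).1, (hCb i).trans hR⟩))).1
    · rintro _ ⟨x, hx, rfl⟩ ε hε
      obtain ⟨c, hc, hcN, h⟩ := hH.alg n φ a ha N x hx.1 hx.2 ε hε
      exact ⟨_, ⟨c, ⟨hc, hcN⟩, rfl⟩, h⟩
  | @sup n N φ ih =>
    intro a ha
    simp only [Fml.val]
    obtain ⟨C, hC, hCb⟩ := exists_common_bound fun i => ‖a i‖
    obtain ⟨R, hR⟩ := exists_nat_ge C
    obtain ⟨D, hD, hDb⟩ := (nice_val (G := G) φ (max R N)).1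
    have e : (fun x => φ.val (VS H) tr (Fin.cons x a)) '' {x | x ∈ VS H ∧ ‖x‖ ≤ N} =
        (fun x => φ.val (VN G) tr (Fin.cons x a)) '' {x | x ∈ VS H ∧ ‖x‖ ≤ N} := by
      apply Set.image_congr
      intro x hx
      exact ih _ (Fin.cases hx.1 ha)
    rw [e]
    apply sSup_eq_of_dense
    · exact Set.image_mono fun x hx => ⟨hx.1.1, hx.2⟩
    · exact ⟨_, ⟨0, ⟨VS.zero, by simp⟩, rfl⟩⟩
    · refine ⟨D, ?_⟩
      rintro _ ⟨x, hx, rfl⟩
      exact (abs_le.1 (hDb _ (cons_mem_Bal hx.1 hx.2 fun i => ⟨(ha i).1, (hCb i).trans hR⟩))).2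
    · rintro _ ⟨x, hx, rfl⟩ ε hε
      obtain ⟨c, hc, hcN, h⟩ := hH.alg n φ a ha N x hx.1 hx.2 ε hε
      exact ⟨_, ⟨c, ⟨hc, hcN⟩, rfl⟩, h⟩

/-- compression is an isomorphism of `VS H` onto `VN H` -/
theorem cp_iso (H : Subgroup G) : IsIso (VS H) tr (VN H) tr (cp H) where
  cz := VS.zero
  co := VS.one
  ca := fun _ hx _ hy => VS.add hx hy
  cm := fun _ hx _ hy => VS.mul hx hy
  cs := fun _ hx => VS.star hx
  cc := fun c _ hx => VS.smul c hx
  maps := fun _ hx => cp_mem hx.1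
  surj := fun y hy => ⟨tl H y, tl_mem_VS hy, cp_tl hy⟩
  mz := by
    have := cp_smul (H := H) 0 (0 : BH G)
    simpa using this
  mo := cp_one
  ma := fun _ _ _ _ => cp_add _ _
  mm := fun _ _ _ hy => cp_mul hy
  ms := fun _ _ => cp_star _
  mc := fun _ _ _ => cp_smul _ _
  nm := fun _ hx => norm_cp hx
  tr := fun x hx => by
    unfold tr
    rw [inner_dl_left, inner_dl_left, cp_dl]
    rfl

theorem good_val {H : Subgroup G} (hH : Good H) (φ : Fml 0) :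
    φ.val (VN H) tr Fin.elim0 = φ.val (VN G) tr Fin.elim0 := by
  have h1 := (cp_iso H).val_eq φ Fin.elim0 (fun i => i.elim0)
  have h2 := tarski_vaught hH φ Fin.elim0 (fun i => i.elim0)
  rw [← h2, ← h1]
  congr 1
  ext i
  exact i.elim0

theorem good_isEC (hG : IsEC G) {H : Subgroup G} (hH : Good H) : IsEC H :=
  isEC_of_closed hG H hH.grp

end

/-- main theorem with the commutant description of the group von Neumann algebra -/
theorem main : ∃ (G H : Type) (_ : Group G) (_ : Group H), Countable G ∧ Countable H ∧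
    IsEC G ∧ IsEC H ∧ IsEmpty (G ≃* H) ∧
    ∀ φ : Fml 0, φ.val (VN G) tr Fin.elim0 = φ.val (VN H) tr Fin.elim0 := by
  obtain ⟨Ω, gΩ, f, hf, hΩ⟩ := exists_ec Amb
  obtain ⟨H₁, -, hH₁⟩ := exists_good (G := Ω) ∅ Set.countable_empty
  have c₁ : Countable H₁ := hH₁.cnt.to_subtype
  obtain ⟨T, hT⟩ := exists_not_realised H₁
  obtain ⟨H₂, hS, hH₂⟩ := exists_good (G := Ω) {f (xS (RT T)), f yS} (Set.toFinite _).countable
  refine ⟨H₁, H₂, inferInstance, inferInstance, c₁, hH₂.cnt.to_subtype, good_isEC hΩ hH₁,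
    good_isEC hΩ hH₂, ⟨fun e => ?_⟩, fun φ => ?_⟩
  · have m1 : f (xS (RT T)) ∈ H₂ := hS (Or.inl rfl)
    have m2 : f yS ∈ H₂ := hS (Or.inr rfl)
    obtain ⟨a, b, hab⟩ := realised_iso e ⟨_, m1⟩ ⟨_, m2⟩
    have h1 : rset (⟨_, m1⟩ : H₂) ⟨_, m2⟩ = rset (f (xS (RT T))) (f yS) :=
      (rset_map H₂.subtype H₂.subtype_injective _ _).symm
    rw [h1, rset_map f hf, rset_amb'] at hab
    exact hT a b hab
  · rw [good_val hH₁, good_val hH₂]

end Pool.Agent.Helper88.EC
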