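import Mathlib
import Pool.Agent.Helper88.EC.Reg

set_option autoImplicit false

open Function
open scoped ENNReal InnerProductSpace

namespace Pool.Agent.Helper88.EC

section

variable {G : Type} [Group G]

/-- left and right convolvers commute -/
theorem comm_of_comm {x y : BH G} (hx : x ∈ VN G) (hy : ∀ g, y * lam g = lam g * y) :
    x * y = y * x := by
  apply op_ext
  intro g
  apply hs_ext
  intro h
  have y1 : ∀ k g : G, y (dl g) k = y (dl 1) (g⁻¹ * k) := by
    intro k g
    have h1 : (dl g : Hs G) = lam g (dl 1) := by rw [lam_dl, mul_one]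
    have h2 : y (lam g (dl 1)) = lam g (y (dl 1)) := congrArg (fun z : BH G => z (dl 1)) (hy g)
    rw [h1, h2, lam_apply]
  have e1 : (x * y) (dl g) h = ∑' k, x (dl 1) (h * k⁻¹) * y (dl 1) (g⁻¹ * k) := by
    rw [mul_apply_eq_comp, ← inner_dl_left h, ← ContinuousLinearMap.adjoint_inner_left,
      lp.inner_eq_tsum]
    apply tsum_congr
    intro k
    rw [← ContinuousLinearMap.star_eq_adjoint, VN.apply_dl (VN.star_mem hx), VN.star_coeff hx,
      y1 k g]
    simp [mul_comm]
  have e2 : (y * x) (dl g) h = ∑' k, y (dl 1) (k⁻¹ * h) * x (dl 1) (k * g⁻¹) := by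
    rw [mul_apply_eq_comp, ← inner_dl_left h, ← ContinuousLinearMap.adjoint_inner_left,
      lp.inner_eq_tsum]
    apply tsum_congr
    intro k
    have e3 : ContinuousLinearMap.adjoint y (dl h) k = (starRingEnd ℂ) (y (dl 1) (k⁻¹ * h)) := by
      rw [← inner_dl_left k, ContinuousLinearMap.adjoint_inner_right, inner_dl_right, y1 h k]
    rw [e3, VN.apply_dl hx]
    simp [mul_comm]
  rw [e1, e2]
  let σ : G ≃ G := ((Equiv.inv G).trans (Equiv.mulLeft h)).trans (Equiv.mulRight g)
  rw [← σ.tsum_eq (fun k => y (dl 1) (k⁻¹ * h) * x (dl 1) (k * g⁻¹))]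
  apply tsum_congr
  intro k
  have e3 : σ k = h * k⁻¹ * g := rfl
  have e4 : (σ k)⁻¹ * h = g⁻¹ * k := by rw [e3]; group
  have e5 : σ k * g⁻¹ = h * k⁻¹ := by rw [e3]; group
  rw [e4, e5, mul_comm]

lemma lam_mul (g h : G) : lam g * lam h = lam (g * h) := by
  apply op_ext
  intro k
  rw [mul_apply_eq_comp, lam_dl, lam_dl, lam_dl, mul_assoc]

lemma lam_one : lam (1 : G) = 1 := by
  apply op_ext
  intro k
  rw [lam_dl, one_mul]; rfl

lemma star_lam (g : G) : star (lam g) = lam g⁻¹ := by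
  apply op_ext
  intro b
  have := xt_dl (fun h => g⁻¹ * h) (mul_right_injective g⁻¹) b
  rw [lam_dl]
  exact this

lemma lam_mem (g : G) : lam g ∈ VN G := by
  intro h
  apply op_ext
  intro k
  rw [mul_apply_eq_comp, mul_apply_eq_comp, rho_dl, lam_dl, lam_dl, rho_dl, mul_assoc]

/-- linear span of the left regular representation -/
noncomputable def Sp (G : Type) [Group G] : Submodule ℂ (BH G) := Submodule.span ℂ (Set.range (lam : G → BH G))

lemma lam_mul_mem (g : G) {a : BH G} (ha : a ∈ Sp G) : lam g * a ∈ Sp G := by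
  induction ha using Submodule.span_induction with
  | mem x hx =>
    obtain ⟨h, rfl⟩ := hx
    rw [lam_mul]
    exact Submodule.subset_span ⟨_, rfl⟩
  | zero => rw [mul_zero]; exact Submodule.zero_mem _
  | add x y _ _ hx hy => rw [mul_add]; exact Submodule.add_mem _ hx hy
  | smul c x _ hx => rw [mul_smul_comm]; exact Submodule.smul_mem _ c hx

lemma one_mem_Sp : (1 : BH G) ∈ Sp G := by
  rw [← lam_one]; exact Submodule.subset_span ⟨1, rfl⟩

/-- `ℓ²(G)^n` -/
abbrev Amp (G : Type) (n : ℕ) : Type := PiLp 2 (fun _ : Fin n => Hs G)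

noncomputable def amp {n : ℕ} (b : BH G) : Amp G n →L[ℂ] Amp G n :=
  ((PiLp.continuousLinearEquiv 2 ℂ (fun _ : Fin n => Hs G)).symm :
    (Fin n → Hs G) →L[ℂ] Amp G n).comp
    ((ContinuousLinearMap.pi fun i => b.comp (ContinuousLinearMap.proj i)).comp
      (PiLp.continuousLinearEquiv 2 ℂ (fun _ : Fin n => Hs G) : Amp G n →L[ℂ] (Fin n → Hs G)))

lemma amp_apply {n : ℕ} (b : BH G) (v : Amp G n) (i : Fin n) : amp b v i = b (v i) := rfl

lemma inner_amp {n : ℕ} (b : BH G) (v w : Amp G n) : ⟪amp b v, w⟫_ℂ = ⟪v, amp (star b) w⟫_ℂ := by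
  rw [PiLp.inner_apply, PiLp.inner_apply]
  apply Finset.sum_congr rfl
  intro i _
  rw [amp_apply, amp_apply, ContinuousLinearMap.star_eq_adjoint,
    ContinuousLinearMap.adjoint_inner_right]

noncomputable def inc {n : ℕ} (j : Fin n) : Hs G →L[ℂ] Amp G n :=
  ((PiLp.continuousLinearEquiv 2 ℂ (fun _ : Fin n => Hs G)).symm :
    (Fin n → Hs G) →L[ℂ] Amp G n).comp (ContinuousLinearMap.single ℂ (fun _ : Fin n => Hs G) j)

lemma inc_apply {n : ℕ} (j : Fin n) (ζ : Hs G) (i : Fin n) :
    inc j ζ i = Pi.single (M := fun _ => Hs G) j ζ i := rfl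

lemma sum_inc {n : ℕ} (v : Amp G n) : ∑ j, inc j (v j) = v := by
  apply PiLp.ext
  intro i
  rw [WithLp.ofLp_sum, Finset.sum_apply]
  rw [Finset.sum_eq_single i]
  · simp [inc_apply]
  · intro j _ hj
    rw [inc_apply, Pi.single_eq_of_ne hj.symm]
  · simp

lemma amp_inc {n : ℕ} (b : BH G) (j : Fin n) (ζ : Hs G) : amp b (inc j ζ) = inc j (b ζ) := by
  apply PiLp.ext
  intro i
  rw [amp_apply, inc_apply, inc_apply]
  by_cases h : i = j
  · subst h; simp
  · rw [Pi.single_eq_of_ne h, Pi.single_eq_of_ne h, map_zero]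

noncomputable def prj {n : ℕ} (i : Fin n) : Amp G n →L[ℂ] Hs G :=
  (ContinuousLinearMap.proj i).comp
    (PiLp.continuousLinearEquiv 2 ℂ (fun _ : Fin n => Hs G) : Amp G n →L[ℂ] (Fin n → Hs G))

lemma prj_apply {n : ℕ} (i : Fin n) (v : Amp G n) : prj i v = v i := rfl

/-- an operator commuting with all `amp (lam g)` commutes with `amp x` for `x ∈ VN G` -/
lemma amp_comm {n : ℕ} {P : Amp G n →L[ℂ] Amp G n}
    (hP : ∀ g v, P (amp (lam g) v) = amp (lam g) (P v)) {x : BH G} (hx : x ∈ VN G) (v : Amp G n) :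
    amp x (P v) = P (amp x v) := by
  have key : ∀ i j : Fin n, ∀ ζ : Hs G, x (P (inc j ζ) i) = P (inc j (x ζ)) i := by
    intro i j ζ
    let y : BH G := (prj i).comp (P.comp (inc j))
    have hy : ∀ g, y * lam g = lam g * y := by
      intro g
      ext ζ : 1
      simp only [mul_apply_eq_comp, y, ContinuousLinearMap.comp_apply, prj_apply]
      rw [← amp_inc, hP, amp_apply]
    have := comm_of_comm hx hy
    exact congrArg (fun z : BH G => z ζ) this
  apply PiLp.ext
  intro i
  rw [amp_apply]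
  conv_lhs => rw [← sum_inc v]
  have e2 : amp x v = ∑ j, inc j (x (v j)) := by
    conv_lhs => rw [← sum_inc v]
    rw [map_sum]
    apply Finset.sum_congr rfl
    intro j _
    rw [amp_inc]
  rw [e2, map_sum, map_sum, WithLp.ofLp_sum, WithLp.ofLp_sum, Finset.sum_apply, Finset.sum_apply,
    map_sum]
  apply Finset.sum_congr rfl
  intro j _
  exact key i j (v j)

/-- strong density of the span of the left regular representation -/
theorem sot_dense {x : BH G} (hx : x ∈ VN G) {n : ℕ} (ξ : Fin n → Hs G) (ε : ℝ) (hε : 0 < ε) :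
    ∃ a ∈ Sp G, ∀ i, ‖x (ξ i) - a (ξ i)‖ < ε := by
  let v : Amp G n := WithLp.toLp 2 ξ
  have hv : ∀ i, v i = ξ i := fun i => rfl
  let Φ : BH G →ₗ[ℂ] Amp G n :=
    { toFun := fun a => amp a v
      map_add' := fun a b => by apply PiLp.ext; intro i; rfl
      map_smul' := fun c a => by apply PiLp.ext; intro i; rfl }
  let K₀ : Submodule ℂ (Amp G n) := (Sp G).map Φ
  let K : Submodule ℂ (Amp G n) := K₀.topologicalClosure
  have hKc : IsClosed (K : Set (Amp G n)) := K₀.isClosed_topologicalClosure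
  have : CompleteSpace K := hKc.completeSpace_coe
  have hK₀ : ∀ g, ∀ w ∈ K₀, amp (lam g) w ∈ K₀ := by
    rintro g _ ⟨a, ha, rfl⟩
    exact ⟨lam g * a, lam_mul_mem g ha, rfl⟩
  have hK : ∀ g, ∀ w ∈ K, amp (lam g) w ∈ K := by
    intro g w hw
    have h1 : (K₀ : Set (Amp G n)) ⊆ (amp (lam g)) ⁻¹' (K : Set (Amp G n)) := fun w hw =>
      K₀.le_topologicalClosure (hK₀ g w hw)
    have h2 : IsClosed ((amp (lam g)) ⁻¹' (K : Set (Amp G n))) :=
      hKc.preimage (amp (lam g)).continuous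
    exact (closure_minimal h1 h2) hw
  have hP : ∀ g w, K.starProjection (amp (lam g) w) = amp (lam g) (K.starProjection w) := by
    intro g w
    apply Submodule.eq_starProjection_of_mem_of_inner_eq_zero
    · exact hK g _ (K.starProjection_apply_mem w)
    · intro z hz
      rw [← map_sub, inner_amp, star_lam]
      exact Submodule.starProjection_inner_eq_zero w _ (hK g⁻¹ z hz)
  have hvK : v ∈ K := K₀.le_topologicalClosure ⟨1, one_mem_Sp, rfl⟩
  have h1 : amp x v ∈ K := by
    have h2 := amp_comm hP hx v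
    rw [Submodule.starProjection_eq_self_iff.2 hvK] at h2
    rw [h2]
    exact K.starProjection_apply_mem _
  obtain ⟨_, ⟨a, ha, rfl⟩, hd⟩ := Metric.mem_closure_iff.1 h1 ε hε
  refine ⟨a, ha, fun i => ?_⟩
  rw [dist_eq_norm] at hd
  refine lt_of_le_of_lt ?_ hd
  exact PiLp.norm_apply_le (amp x v - amp a v) i

/-- The group von Neumann algebra `L(G)`: the closure of the linear span of
`{λ_g : g ∈ G}` in the weak operator topology of the bounded operators on `ℓ²(G)`. -/
def LG (G : Type) [Group G] : Set (BH G) :=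
  {x | ContinuousLinearMapWOT.ofCLM x ∈
    closure (ContinuousLinearMapWOT.ofCLM ''
      (Submodule.span ℂ (Set.range (lam : G → BH G)) : Set (BH G)))}

theorem LG_subset : LG G ⊆ VN G := by
  intro x hx
  have hc : IsClosed {z : Hs G →WOT[ℂ] Hs G | ∀ (g : G) (ξ : Hs G) (h : G),
      (z (rho g ξ)) h = (z ξ) (h * g)} := by
    simp only [Set.ofPred_forall]
    refine isClosed_iInter fun g => isClosed_iInter fun ξ => isClosed_iInter fun h => ?_
    have c : ∀ (ξ : Hs G) (h : G), Continuous fun z : Hs G →WOT[ℂ] Hs G => (z ξ) h := by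
      intro ξ h
      have := ContinuousLinearMapWOT.continuous_dual_apply (𝕜₁ := ℂ) (σ := RingHom.id ℂ)
        (E := Hs G) (F := Hs G) ξ (innerSL ℂ (dl h))
      simpa only [innerSL_apply_apply, inner_dl_left] using this
    exact isClosed_eq (c _ _) (c _ _)
  have hs : ContinuousLinearMapWOT.ofCLM ''
      (Submodule.span ℂ (Set.range (lam : G → BH G)) : Set (BH G)) ⊆
      {z : Hs G →WOT[ℂ] Hs G | ∀ (g : G) (ξ : Hs G) (h : G),
        (z (rho g ξ)) h = (z ξ) (h * g)} := by
    rintro _ ⟨a, ha, rfl⟩ g ξ h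
    have ha' : a ∈ VN G := by
      have ha2 : a ∈ Submodule.span ℂ (Set.range (lam : G → BH G)) := ha
      clear ha
      induction ha2 using Submodule.span_induction with
      | mem x hx => obtain ⟨k, rfl⟩ := hx; exact lam_mem k
      | zero => exact VN.zero_mem
      | add x y _ _ hx hy => exact VN.add_mem hx hy
      | smul c x _ hx => exact VN.smul_mem c hx
    have := congrArg (fun ζ : Hs G => ζ h) (VN.comm ha' g ξ)
    exact this
  have h := closure_minimal hs hc hx
  intro g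
  ext ξ : 1
  apply hs_ext
  intro k
  exact h g ξ k

theorem subset_LG : VN G ⊆ LG G := by
  intro x hx
  unfold LG
  rw [Set.mem_ofPred_eq, (ContinuousLinearMapWOT.isInducing_inducingFn).closure_eq_preimage_closure_image,
    Set.mem_preimage, mem_closure_iff]
  intro o ho hxo
  obtain ⟨I, u, hu, hI⟩ := isOpen_pi_iff.1 ho _ hxo
  -- radii
  have hr : ∀ p : Hs G × StrongDual ℂ (Hs G), ∃ r : ℝ, 0 < r ∧ (p ∈ I → ∀ z : ℂ,
      dist z (p.2 (x p.1)) < r → z ∈ u p) := by
    intro p
    by_cases hp : p ∈ I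
    · obtain ⟨r, hr, hb⟩ := Metric.isOpen_iff.1 (hu p hp).1 _ (hu p hp).2
      exact ⟨r, hr, fun _ z hz => hb hz⟩
    · exact ⟨1, one_pos, fun h => absurd h hp⟩
  choose r hr0 hr using hr
  let e := I.equivFin.symm
  obtain ⟨δ, hδ, hδb⟩ : ∃ δ > 0, ∀ i : Fin I.card, δ ≤ r (e i) / (‖(e i).1.2‖ + 1) := by
    have : ∀ (k : ℕ) (d : Fin k → ℝ), (∀ i, 0 < d i) → ∃ δ > 0, ∀ i, δ ≤ d i := by
      intro k
      induction k with
      | zero => exact fun d _ => ⟨1, one_pos, fun i => i.elim0⟩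
      | succ k ih =>
        intro d hd
        obtain ⟨δ, h0, h⟩ := ih (fun i => d i.succ) (fun i => hd _)
        exact ⟨min δ (d 0), lt_min h0 (hd 0), fun i => Fin.cases (min_le_right _ _)
          (fun j => (min_le_left _ _).trans (h j)) i⟩
    exact this _ _ fun i => div_pos (hr0 _) (by positivity)
  obtain ⟨a, ha, hab⟩ := sot_dense hx (fun i : Fin I.card => (e i).1.1) δ hδ
  refine ⟨_, hI ?_, ⟨_, ⟨a, ha, rfl⟩, rfl⟩⟩
  intro p hp
  apply hr p hp
  obtain ⟨i, hi⟩ := e.surjective ⟨p, hp⟩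
  have h1 := hab i
  have h2 := hδb i
  rw [hi] at h1 h2
  simp only at h1 h2
  have e1 : (ContinuousLinearMapWOT.inducingFn (RingHom.id ℂ) (Hs G) (Hs G))
      (ContinuousLinearMapWOT.ofCLM a) p = p.2 (a p.1) := rfl
  rw [e1, dist_comm, dist_eq_norm, ← map_sub]
  calc ‖p.2 (x p.1 - a p.1)‖ ≤ ‖p.2‖ * ‖x p.1 - a p.1‖ := p.2.le_opNorm _
    _ ≤ ‖p.2‖ * δ := by gcongr
    _ < (‖p.2‖ + 1) * δ := by nlinarith
    _ ≤ (‖p.2‖ + 1) * (r p / (‖p.2‖ + 1)) := by gcongr
    _ = r p := by field_simp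

theorem LG_eq : LG G = VN G := Set.Subset.antisymm LG_subset subset_LG

end

end Pool.Agent.Helper88.EC
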