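import Mathlib
import Pool.Agent.Helper88.EC.Main
import Pool.Agent.Helper88.EC.Wot

set_option autoImplicit false

open Function Cardinal

namespace Pool.Agent.Helper88.EC

lemma RT_injective : Injective RT := by
  intro S T h
  ext i
  have : i + 1 ∈ RT S ↔ i + 1 ∈ RT T := by rw [h]
  simpa [RT] using this

/-- the family of groups indexed by sets of natural numbers -/
theorem family_sets : ∃ (G : Set ℕ → Type) (_ : ∀ S, Group (G S)),
    (∀ S, Countable (G S)) ∧ (∀ S, IsEC (G S)) ∧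
    (∀ S, ∃ a b : G S, rset a b = RT S) ∧
    ∀ S T, ∀ φ : Fml 0, φ.val (VN (G S)) tr Fin.elim0 = φ.val (VN (G T)) tr Fin.elim0 := by
  obtain ⟨Ω, gΩ, f, hf, hΩ⟩ := exists_ec Amb
  choose H hS hH using fun T : Set ℕ =>
    exists_good (G := Ω) {f (xS (RT T)), f yS} (Set.toFinite _).countable
  refine ⟨fun T => H T, fun T => inferInstance, fun T => (hH T).cnt.to_subtype,
    fun T => good_isEC hΩ (hH T), fun T => ?_, fun S T φ => ?_⟩
  · refine ⟨⟨f (xS (RT T)), hS T (Or.inl rfl)⟩, ⟨f yS, hS T (Or.inr rfl)⟩, ?_⟩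
    have h1 := rset_map (H T).subtype (H T).subtype_injective
      ⟨f (xS (RT T)), hS T (Or.inl rfl)⟩ ⟨f yS, hS T (Or.inr rfl)⟩
    rw [← h1]
    have h2 := rset_map f hf (xS (RT T)) yS
    rw [rset_amb'] at h2
    exact h2
  · rw [good_val (hH S), good_val (hH T)]

theorem family : ∃ (ι : Type) (G : ι → Type) (_ : ∀ i, Group (G i)), #ι = 𝔠 ∧
    (∀ i, Countable (G i)) ∧ (∀ i, IsEC (G i)) ∧ (∀ i j, i ≠ j → IsEmpty (G i ≃* G j)) ∧
    ∀ i j, ∀ φ : Fml 0, φ.val (VN (G i)) tr Fin.elim0 = φ.val (VN (G j)) tr Fin.elim0 := by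
  obtain ⟨G, gG, hc, hE, hr, hv⟩ := family_sets
  let s : Setoid (Set ℕ) :=
    { r := fun S T => Nonempty (G S ≃* G T)
      iseqv := ⟨fun S => ⟨MulEquiv.refl _⟩, fun ⟨e⟩ => ⟨e.symm⟩, fun ⟨e⟩ ⟨e'⟩ => ⟨e.trans e'⟩⟩ }
  refine ⟨Quotient s, fun i => G i.out, fun i => gG i.out, ?_, fun i => hc _, fun i => hE _, ?_,
    fun i j => hv _ _⟩
  · apply le_antisymm
    · calc #(Quotient s) ≤ #(Set ℕ) := mk_le_of_surjective Quotient.mk_surjective
        _ = 𝔠 := by rw [mk_set, mk_nat, two_power_aleph0]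
    · have h1 : #(Set ℕ) = sum fun i : Quotient s => #{S : Set ℕ // (Quotient.mk s S) = i} := by
        rw [← mk_sigma]
        exact mk_congr (Equiv.sigmaFiberEquiv (Quotient.mk s)).symm
      have h2 : ∀ i : Quotient s, #{S : Set ℕ // (Quotient.mk s S) = i} ≤ ℵ₀ := by
        intro i
        rw [mk_le_aleph0_iff]
        have hci := hc i.out
        have key : ∀ S : {S : Set ℕ // (Quotient.mk s S) = i}, ∃ p : G i.out × G i.out,
            rset p.1 p.2 = RT S.1 := by
          rintro ⟨S, hS⟩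
          have h3 : Quotient.mk s S = Quotient.mk s i.out := by rw [hS, Quotient.out_eq]
          obtain ⟨e⟩ : Nonempty (G S ≃* G i.out) := Quotient.exact h3
          obtain ⟨a, b, hab⟩ := hr S
          obtain ⟨a', b', hab'⟩ := realised_iso e.symm a b
          exact ⟨(a', b'), hab'.trans hab⟩
        choose p hp using key
        have hinj : Injective p := by
          intro S T h
          apply Subtype.ext
          apply RT_injective
          rw [← hp S, ← hp T, h]
        exact hinj.countable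
      have h3 : 𝔠 ≤ #(Quotient s) * ℵ₀ := by
        have h4 : #(Set ℕ) = 𝔠 := by rw [mk_set, mk_nat, two_power_aleph0]
        rw [← h4, h1]
        exact (sum_le_sum _ _ h2).trans (by rw [sum_const']) 
      by_contra hlt
      push Not at hlt
      have h4 : #(Quotient s) * ℵ₀ ≤ max (max #(Quotient s) ℵ₀) ℵ₀ := mul_le_max _ _
      have h5 : max (max #(Quotient s) ℵ₀) ℵ₀ < 𝔠 := by
        simp only [max_lt_iff]
        exact ⟨⟨hlt, aleph0_lt_continuum⟩, aleph0_lt_continuum⟩
      exact absurd (h3.trans h4) (not_le.2 h5)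
  · intro i j hij
    refine ⟨fun e => hij ?_⟩
    have : Quotient.mk s i.out = Quotient.mk s j.out := Quotient.sound ⟨e⟩
    rwa [Quotient.out_eq, Quotient.out_eq] at this

lemma groupVN_eq (G : Type) [Group G] : groupVN G = VN G := by
  rw [← LG_eq]
  unfold groupVN LG wotSpanClosure
  have : leftTranslations G = Set.range lam := by
    ext T
    constructor
    · rintro ⟨g, hg⟩
      refine ⟨g, ?_⟩
      ext ξ : 1
      apply hs_ext
      intro h
      rw [lam_apply, hg]
    · rintro ⟨g, rfl⟩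
      exact ⟨g, fun ξ h => rfl⟩
  rw [this]

lemma canTrace_eq (G : Type) [Group G] : canTrace G = tr := rfl

theorem final : ∃ (ι : Type) (G : ι → Type) (_ : ∀ i, Group (G i)), #ι = 𝔠 ∧
    (∀ i, Countable (G i)) ∧ (∀ i, IsEC (G i)) ∧ (∀ i j, i ≠ j → IsEmpty (G i ≃* G j)) ∧
    ∀ i j, ElemEquivVN (G i) (G j) := by
  obtain ⟨ι, G, gG, h1, h2, h3, h4, h5⟩ := family
  refine ⟨ι, G, gG, h1, h2, h3, h4, fun i j φ => ?_⟩
  rw [groupVN_eq, groupVN_eq, canTrace_eq, canTrace_eq]
  exact h5 i j φ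

end Pool.Agent.Helper88.EC
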